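import Mathlib

/-! The cycle `ZMod (4 * n)`, its word length, and the square wave of period `4 * n`. -/

namespace LipFree

set_option linter.unusedSectionVars false

variable {n : ℕ}

/-- word length on the cycle of length `4 n` -/
def th (t : ZMod (4 * n)) : ℕ := if t.val ≤ 2 * n then t.val else 4 * n - t.val

/-- square wave -/
def sg (t : ZMod (4 * n)) : ℝ := if t.val < 2 * n then 1 else -1

/-- indicator of a half circle -/
def ind (t : ZMod (4 * n)) : ℝ := if t.val < 2 * n then 1 else 0

section
variable [NeZero n]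

instance instNeZeroFour : NeZero (4 * n) := ⟨Nat.mul_ne_zero (by norm_num) (NeZero.ne n)⟩

theorem npos : 0 < n := Nat.pos_of_ne_zero (NeZero.ne n)

theorem val_add_cases (a b : ZMod (4 * n)) :
    (a.val + b.val < 4 * n ∧ (a + b).val = a.val + b.val) ∨
      (4 * n ≤ a.val + b.val ∧ (a + b).val + 4 * n = a.val + b.val) := by
  rcases lt_or_ge (a.val + b.val) (4 * n) with h | h
  · exact Or.inl ⟨h, ZMod.val_add_of_lt h⟩
  · exact Or.inr ⟨h, (ZMod.val_add_val_of_le h).symm⟩

theorem val_one' : (1 : ZMod (4 * n)).val = 1 := by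
  have h : 0 < n := npos
  have : Fact (1 < 4 * n) := ⟨by omega⟩
  exact ZMod.val_one (4 * n)

theorem val_n : ((n : ZMod (4 * n))).val = n := by
  have h : 0 < n := npos
  exact ZMod.val_natCast_of_lt (by omega)

theorem val_2n : (((2 * n : ℕ) : ZMod (4 * n))).val = 2 * n := by
  have h : 0 < n := npos
  exact ZMod.val_natCast_of_lt (by omega)

theorem val_lt' (t : ZMod (4 * n)) : t.val < 4 * n := ZMod.val_lt t

theorem th_le (t : ZMod (4 * n)) : th t ≤ 2 * n := by
  unfold th
  have := val_lt' t
  split_ifs <;> omega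

theorem th_zero : th (0 : ZMod (4 * n)) = 0 := by
  simp [th]

theorem th_one : th (1 : ZMod (4 * n)) = 1 := by
  have h : 0 < n := npos
  unfold th
  rw [val_one']
  split_ifs <;> omega

theorem th_add_le (s t : ZMod (4 * n)) : th (s + t) ≤ th s + th t := by
  unfold th
  have h1 := val_lt' s
  have h2 := val_lt' t
  have h3 := val_lt' (s + t)
  rcases val_add_cases s t with h | h <;> split_ifs <;> omega

theorem th_neg (t : ZMod (4 * n)) : th (-t) = th t := by
  unfold th
  have h1 := val_lt' t
  have h2 := val_lt' (-t)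
  have h3 := val_add_cases t (-t)
  rw [add_neg_cancel, ZMod.val_zero] at h3
  rcases h3 with h | h <;> split_ifs <;> omega

theorem th_succ (t : ZMod (4 * n)) : (th (t + 1) : ℝ) - th t = sg t := by
  have h : 0 < n := npos
  have h1 := val_lt' t
  have h3 := val_add_cases t 1
  have h4 := val_one' (n := n)
  rw [h4] at h3
  rcases lt_or_ge t.val (2 * n) with hc | hc
  · have e1 : th (t + 1) = th t + 1 := by
      unfold th
      rcases h3 with h | h <;> split_ifs <;> omega
    rw [e1, sg, if_pos hc]
    push_cast
    ring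
  · have e1 : th (t + 1) + 1 = th t := by
      unfold th
      rcases h3 with h | h <;> split_ifs <;> omega
    rw [← e1, sg, if_neg (by omega)]
    push_cast
    ring

theorem sg_shift (t : ZMod (4 * n)) : sg (t + ((2 * n : ℕ) : ZMod (4 * n))) = - sg t := by
  have h : 0 < n := npos
  have h1 := val_lt' t
  have h3 := val_add_cases t ((2 * n : ℕ) : ZMod (4 * n))
  rw [val_2n] at h3
  unfold sg
  rcases h3 with h | h
  · rw [if_pos (by omega : t.val < 2 * n), if_neg (by omega)]
  · rw [if_neg (by omega : ¬ t.val < 2 * n), if_pos (by omega)]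
    norm_num

theorem abs_sg (t : ZMod (4 * n)) : |sg t| = 1 := by
  unfold sg
  split_ifs <;> simp

theorem sg_sq (t : ZMod (4 * n)) : sg t * sg t = 1 := by
  unfold sg
  split_ifs <;> norm_num

theorem ind_succ (t : ZMod (4 * n)) : ind (t + 1) - ind t =
    (if t = -1 then 1 else 0) - (if t = ((2 * n : ℕ) : ZMod (4 * n)) - 1 then 1 else 0) := by
  have h : 0 < n := npos
  have h1 := val_lt' t
  have h3 := val_add_cases t 1
  have h4 := val_one' (n := n)
  rw [h4] at h3
  have e1 : t = -1 ↔ t.val + 1 = 4 * n := by
    constructor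
    · intro h'
      have h5 : t + 1 = 0 := by rw [h']; ring
      rw [h5, ZMod.val_zero] at h3
      omega
    · intro h'
      have h5 : (t + 1).val = 0 := by omega
      rw [ZMod.val_eq_zero] at h5
      exact eq_neg_of_add_eq_zero_left h5
  have e2 : t = ((2 * n : ℕ) : ZMod (4 * n)) - 1 ↔ t.val + 1 = 2 * n := by
    constructor
    · intro h'
      have h5 : t + 1 = ((2 * n : ℕ) : ZMod (4 * n)) := by rw [h']; ring
      rw [h5, val_2n] at h3
      omega
    · intro h'
      have h5 : (t + 1).val = (((2 * n : ℕ) : ZMod (4 * n))).val := by rw [val_2n]; omega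
      have h6 := ZMod.val_injective _ h5
      rw [← h6]
      ring
  unfold ind
  simp only [e1, e2]
  rcases h3 with h | h <;> split_ifs <;> first | (exfalso; omega) | norm_num

theorem ind_shift (t : ZMod (4 * n)) : ind t + ind (t + ((2 * n : ℕ) : ZMod (4 * n))) = 1 := by
  have h : 0 < n := npos
  have h1 := val_lt' t
  have h3 := val_add_cases t ((2 * n : ℕ) : ZMod (4 * n))
  rw [val_2n] at h3
  unfold ind
  rcases h3 with h | h <;> split_ifs <;> first | (exfalso; omega) | norm_num

theorem sum_ind : ∑ j : ZMod (4 * n), ind j = 2 * n := by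
  have h1 : ∑ j : ZMod (4 * n), ind (j + ((2 * n : ℕ) : ZMod (4 * n))) = ∑ j : ZMod (4 * n), ind j :=
    Equiv.sum_comp (Equiv.addRight ((2 * n : ℕ) : ZMod (4 * n))) ind
  have h2 : ∑ j : ZMod (4 * n), (ind j + ind (j + ((2 * n : ℕ) : ZMod (4 * n)))) = 4 * n := by
    rw [Finset.sum_congr rfl (fun j _ => ind_shift j)]
    simp [ZMod.card]
  rw [Finset.sum_add_distrib, h1] at h2
  linarith

/-- autocorrelation of the half circle -/
theorem autocorr (d : ZMod (4 * n)) :
    ∑ j : ZMod (4 * n), ind j * ind (j + d) = 2 * n - th d := by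
  have key : ∀ r : ℕ, ∑ j : ZMod (4 * n), ind j * ind (j + (r : ZMod (4 * n))) =
      2 * n - th (r : ZMod (4 * n)) := by
    intro r
    induction r with
    | zero =>
      rw [Nat.cast_zero, th_zero]
      simp only [add_zero, Nat.cast_zero, sub_zero]
      rw [← sum_ind]
      refine Finset.sum_congr rfl (fun j _ => ?_)
      unfold ind
      split_ifs <;> norm_num
    | succ r ih =>
      have e1 : ∑ j : ZMod (4 * n), ind j * ind (j + ((r + 1 : ℕ) : ZMod (4 * n))) -
          ∑ j : ZMod (4 * n), ind j * ind (j + (r : ZMod (4 * n))) =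
          ∑ j : ZMod (4 * n), ind j * ((if j = -1 - (r : ZMod (4 * n)) then 1 else 0) -
            (if j = ((2 * n : ℕ) : ZMod (4 * n)) - 1 - (r : ZMod (4 * n)) then 1 else 0)) := by
        rw [← Finset.sum_sub_distrib]
        refine Finset.sum_congr rfl (fun j _ => ?_)
        rw [← mul_sub]
        congr 1
        have := ind_succ (j + (r : ZMod (4 * n)))
        rw [show j + (r : ZMod (4 * n)) + 1 = j + ((r + 1 : ℕ) : ZMod (4 * n)) by push_cast; ring] at this
        rw [this]
        have c1 : (j + (r : ZMod (4 * n)) = -1) ↔ (j = -1 - (r : ZMod (4 * n))) :=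
          eq_sub_iff_add_eq.symm
        have c2 : (j + (r : ZMod (4 * n)) = ((2 * n : ℕ) : ZMod (4 * n)) - 1) ↔
            (j = ((2 * n : ℕ) : ZMod (4 * n)) - 1 - (r : ZMod (4 * n))) :=
          eq_sub_iff_add_eq.symm
        simp only [c1, c2]
      have e2 : ∑ j : ZMod (4 * n), ind j * ((if j = -1 - (r : ZMod (4 * n)) then 1 else 0) -
            (if j = ((2 * n : ℕ) : ZMod (4 * n)) - 1 - (r : ZMod (4 * n)) then 1 else 0)) =
          ind (-1 - (r : ZMod (4 * n))) -
            ind (((2 * n : ℕ) : ZMod (4 * n)) - 1 - (r : ZMod (4 * n))) := by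
        simp only [mul_sub, mul_ite, mul_one, mul_zero, Finset.sum_sub_distrib,
          Finset.sum_ite_eq', Finset.mem_univ, if_true]
      have e3 : ind (-1 - (r : ZMod (4 * n))) -
            ind (((2 * n : ℕ) : ZMod (4 * n)) - 1 - (r : ZMod (4 * n))) =
            - sg (r : ZMod (4 * n)) := by
        set x : ZMod (4 * n) := (r : ZMod (4 * n)) with hx
        have hp : 0 < n := npos
        have h1 := val_lt' x
        have h2 := val_add_cases (-1 - x) (x + 1)
        rw [show (-1 - x) + (x + 1) = 0 by ring, ZMod.val_zero] at h2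
        have h3 := val_add_cases x 1
        rw [val_one'] at h3
        have h4 := val_add_cases (-1 - x) ((2 * n : ℕ) : ZMod (4 * n))
        rw [show (-1 - x) + ((2 * n : ℕ) : ZMod (4 * n)) = ((2 * n : ℕ) : ZMod (4 * n)) - 1 - x by ring,
          val_2n] at h4
        have h5 := val_lt' (-1 - x)
        have h6 := val_lt' (((2 * n : ℕ) : ZMod (4 * n)) - 1 - x)
        have h7 := val_lt' (x + 1)
        unfold ind sg
        rcases h2 with h2 | h2 <;> rcases h3 with h3 | h3 <;> rcases h4 with h4 | h4 <;>
          split_ifs <;> first | (exfalso; omega) | norm_num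
      have e4 := th_succ (r : ZMod (4 * n))
      have e5 : ((r + 1 : ℕ) : ZMod (4 * n)) = (r : ZMod (4 * n)) + 1 := by push_cast; ring
      rw [e2, e3, ih, e5] at e1
      rw [e5]
      linarith
  have := key d.val
  rwa [ZMod.natCast_zmod_val] at this

theorem sum_abs_ind (a b : ZMod (4 * n)) :
    ∑ j : ZMod (4 * n), |ind (j + a) - ind (j + b)| = 2 * th (a - b) := by
  have h0 : ∀ j : ZMod (4 * n), |ind (j + a) - ind (j + b)| =
      ind (j + a) + ind (j + b) - 2 * (ind (j + b) * ind (j + b + (a - b))) := by
    intro j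
    rw [show j + b + (a - b) = j + a by ring]
    unfold ind
    split_ifs <;> norm_num
  rw [Finset.sum_congr rfl (fun j _ => h0 j), Finset.sum_sub_distrib, Finset.sum_add_distrib,
    ← Finset.mul_sum]
  have h1 : ∑ j : ZMod (4 * n), ind (j + a) = 2 * n := by
    rw [← sum_ind]; exact Equiv.sum_comp (Equiv.addRight a) ind
  have h2 : ∑ j : ZMod (4 * n), ind (j + b) = 2 * n := by
    rw [← sum_ind]; exact Equiv.sum_comp (Equiv.addRight b) ind
  have h3 : ∑ j : ZMod (4 * n), ind (j + b) * ind (j + b + (a - b)) = 2 * n - th (a - b) := by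
    rw [← autocorr]
    exact Equiv.sum_comp (Equiv.addRight b) (fun j => ind j * ind (j + (a - b)))
  rw [h1, h2, h3]
  ring

/-- the tent -/
def tent (t : ZMod (4 * n)) : ℝ := n - th (t - (n : ZMod (4 * n)))

theorem tent_pair (t : ZMod (4 * n)) :
    tent t * sg t + tent (t + (n : ZMod (4 * n))) * sg (t + (n : ZMod (4 * n))) = n := by
  have hp : 0 < n := npos
  have h1 := val_lt' t
  have h2 := val_add_cases (t - (n : ZMod (4 * n))) (n : ZMod (4 * n))
  rw [sub_add_cancel, val_n] at h2
  have h3 := val_add_cases t (n : ZMod (4 * n))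
  rw [val_n] at h3
  have h4 := val_lt' (t - (n : ZMod (4 * n)))
  have h5 := val_lt' (t + (n : ZMod (4 * n)))
  unfold tent
  rw [add_sub_cancel_right]
  -- four quarters
  rcases lt_or_ge t.val n with q | q
  · have a1 : (th (t - (n : ZMod (4 * n)))) + t.val = n := by
      unfold th; rcases h2 with h2 | h2 <;> split_ifs <;> omega
    have a2 : th t = t.val := by unfold th; split_ifs <;> omega
    have a3 : sg t = 1 := by unfold sg; rw [if_pos (by omega)]
    have a4 : sg (t + (n : ZMod (4 * n))) = 1 := by
      unfold sg; rw [if_pos (by omega)]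
    rw [a3, a4, a2]
    have : (th (t - (n : ZMod (4 * n))) : ℝ) + t.val = n := by exact_mod_cast a1
    linarith
  · rcases lt_or_ge t.val (2 * n) with q2 | q2
    · have a1 : (th (t - (n : ZMod (4 * n)))) + n = t.val := by
        unfold th; rcases h2 with h2 | h2 <;> split_ifs <;> omega
      have a2 : th t = t.val := by unfold th; split_ifs <;> omega
      have a3 : sg t = 1 := by unfold sg; rw [if_pos (by omega)]
      have a4 : sg (t + (n : ZMod (4 * n))) = -1 := by
        unfold sg; rw [if_neg (by omega)]
      rw [a3, a4, a2]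
      have : (th (t - (n : ZMod (4 * n))) : ℝ) + n = t.val := by exact_mod_cast a1
      linarith
    · rcases lt_or_ge t.val (3 * n) with q3 | q3
      · have a1 : (th (t - (n : ZMod (4 * n)))) + n = t.val := by
          unfold th; rcases h2 with h2 | h2 <;> split_ifs <;> omega
        have a2 : th t + t.val = 4 * n := by unfold th; split_ifs <;> omega
        have a3 : sg t = -1 := by unfold sg; rw [if_neg (by omega)]
        have a4 : sg (t + (n : ZMod (4 * n))) = -1 := by
          unfold sg; rw [if_neg (by omega)]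
        rw [a3, a4]
        have b1 : (th (t - (n : ZMod (4 * n))) : ℝ) + n = t.val := by exact_mod_cast a1
        have b2 : (th t : ℝ) + t.val = 4 * n := by exact_mod_cast a2
        linarith
      · have a1 : (th (t - (n : ZMod (4 * n)))) + t.val = 5 * n := by
          unfold th; rcases h2 with h2 | h2 <;> split_ifs <;> omega
        have a2 : th t + t.val = 4 * n := by unfold th; split_ifs <;> omega
        have a3 : sg t = -1 := by unfold sg; rw [if_neg (by omega)]
        have a4 : sg (t + (n : ZMod (4 * n))) = 1 := by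
          unfold sg; rw [if_pos (by omega)]
        rw [a3, a4]
        have b1 : (th (t - (n : ZMod (4 * n))) : ℝ) + t.val = 5 * n := by exact_mod_cast a1
        have b2 : (th t : ℝ) + t.val = 4 * n := by exact_mod_cast a2
        linarith

theorem abs_tent_sub (s t : ZMod (4 * n)) : |tent s - tent t| ≤ th (s - t) := by
  unfold tent
  have h1 : th (s - (n : ZMod (4 * n))) ≤ th (s - t) + th (t - (n : ZMod (4 * n))) := by
    have := th_add_le (s - t) (t - (n : ZMod (4 * n)))
    rwa [sub_add_sub_cancel] at this
  have h2 : th (t - (n : ZMod (4 * n))) ≤ th (s - t) + th (s - (n : ZMod (4 * n))) := by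
    have := th_add_le (t - s) (s - (n : ZMod (4 * n)))
    rw [sub_add_sub_cancel] at this
    rwa [← th_neg (t - s), neg_sub] at this
  have h1' : (th (s - (n : ZMod (4 * n))) : ℝ) ≤ th (s - t) + th (t - (n : ZMod (4 * n))) := by
    exact_mod_cast h1
  have h2' : (th (t - (n : ZMod (4 * n))) : ℝ) ≤ th (s - t) + th (s - (n : ZMod (4 * n))) := by
    exact_mod_cast h2
  rw [abs_le]
  constructor <;> linarith

end

end LipFree
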