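import Pool.Agent.Lib.MP_3ede0b_an.Circle

/-! The group `(Z/4n)^({-1,0,1}^k)` with its word length, and the two estimates. -/

namespace LipFree

set_option linter.unusedSectionVars false

variable {n k : ℕ}

/-- the group -/
abbrev Gp (n k : ℕ) : Type := (Fin k → SignType) → ZMod (4 * n)

section
variable [NeZero n]

/-- length -/
def len (u : Gp n k) : ℕ := ∑ s, th (u s)

/-- the homomorphism to `(Z/4n)^k` -/
def hom (i : Fin k) (v : Gp n k) : ZMod (4 * n) := ∑ s : Fin k → SignType, ((s i : SignType) : ZMod (4 * n)) * v s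

theorem hom_add (i : Fin k) (v w : Gp n k) : hom i (v + w) = hom i v + hom i w := by
  unfold hom
  rw [← Finset.sum_add_distrib]
  refine Finset.sum_congr rfl (fun s _ => ?_)
  rw [Pi.add_apply]; ring

theorem hom_sub (i : Fin k) (v w : Gp n k) : hom i (v - w) = hom i v - hom i w := by
  unfold hom
  rw [← Finset.sum_sub_distrib]
  refine Finset.sum_congr rfl (fun s _ => ?_)
  rw [Pi.sub_apply]; ring

theorem hom_single (i : Fin k) (s : Fin k → SignType) (a : ZMod (4 * n)) :
    hom i (Pi.single s a) = ((s i : SignType) : ZMod (4 * n)) * a := by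
  unfold hom
  rw [Finset.sum_eq_single s]
  · rw [Pi.single_eq_same]
  · intro b _ hb
    rw [Pi.single_eq_of_ne hb, mul_zero]
  · intro h; exact absurd (Finset.mem_univ s) h

theorem len_add_le (u v : Gp n k) : len (u + v) ≤ len u + len v := by
  unfold len
  rw [← Finset.sum_add_distrib]
  exact Finset.sum_le_sum (fun s _ => th_add_le _ _)

theorem len_neg (u : Gp n k) : len (-u) = len u := by
  unfold len
  exact Finset.sum_congr rfl (fun s _ => th_neg _)

theorem len_zero : len (0 : Gp n k) = 0 := by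
  unfold len
  simp [th_zero]

theorem len_single (s : Fin k → SignType) (a : ZMod (4 * n)) :
    len (Pi.single s a : Gp n k) = th a := by
  unfold len
  rw [Finset.sum_eq_single s]
  · rw [Pi.single_eq_same]
  · intro b _ hb
    rw [Pi.single_eq_of_ne hb, th_zero]
  · intro h; exact absurd (Finset.mem_univ s) h

theorem th_hom_le (i : Fin k) (u : Gp n k) : th (hom i u) ≤ len u := by
  unfold hom len
  have h : ∀ S : Finset (Fin k → SignType),
      th (∑ s ∈ S, ((s i : SignType) : ZMod (4 * n)) * u s) ≤ ∑ s ∈ S, th (u s) := by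
    intro S
    induction S using Finset.induction_on with
    | empty => simp [th_zero]
    | insert a S ha ih =>
      rw [Finset.sum_insert ha, Finset.sum_insert ha]
      refine le_trans (th_add_le _ _) (Nat.add_le_add ?_ ih)
      rcases hsi : a i with _ | _ | _
      · simp [th_zero]
      · simp [th_neg]
      · simp
  exact h Finset.univ

/-- translation invariance -/
theorem sum_shift (w : Gp n k) (φ : Gp n k → ℝ) : ∑ v, φ (v + w) = ∑ v, φ v :=
  Equiv.sum_comp (Equiv.addRight w) φ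

theorem sum_shift_sub (w : Gp n k) (φ : Gp n k → ℝ) : ∑ v, φ (v - w) = ∑ v, φ v :=
  Equiv.sum_comp (Equiv.subRight w) φ

/-- unit step in the direction of a single coordinate -/
def stepAt (i : Fin k) : Fin k → SignType := fun j => if j = i then 1 else 0

/-- unit step in the direction of a set of coordinates -/
def stepSet (T : Finset (Fin k)) : Fin k → SignType := fun j => if j ∈ T then 1 else 0

theorem hom_stepAt (i j : Fin k) (a : ZMod (4 * n)) :
    hom j (Pi.single (stepAt i) a : Gp n k) = if j = i then a else 0 := by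
  rw [hom_single, stepAt]
  split_ifs <;> simp

theorem hom_stepSet (T : Finset (Fin k)) (j : Fin k) (a : ZMod (4 * n)) :
    hom j (Pi.single (stepSet T) a : Gp n k) = if j ∈ T then a else 0 := by
  rw [hom_single, stepSet]
  split_ifs <;> simp

/-- a sum against an odd function of one coordinate -/
theorem flip_bound (i : Fin k) (F W : Gp n k → ℝ) (L B : ℝ) (hL : 0 ≤ L)
    (hF : ∀ v u, F (v + u) ≤ F v + L * len u)
    (hW : ∀ v, W (v + Pi.single (stepAt i) ((2 * n : ℕ) : ZMod (4 * n))) = - W v)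
    (hWB : ∀ v, |W v| ≤ B) :
    |∑ v, F v * W v| ≤ (Fintype.card (Gp n k) : ℝ) * (n * L * B) := by
  set w : Gp n k := Pi.single (stepAt i) ((2 * n : ℕ) : ZMod (4 * n)) with hw
  have h1 : ∑ v, F (v + w) * W (v + w) = ∑ v, F v * W v := sum_shift w (fun v => F v * W v)
  have h2 : 2 * ∑ v, F v * W v = ∑ v, (F v - F (v + w)) * W v := by
    have : ∑ v, (F v - F (v + w)) * W v = ∑ v, F v * W v + ∑ v, F (v + w) * W (v + w) := by
      rw [← Finset.sum_add_distrib]
      refine Finset.sum_congr rfl (fun v _ => ?_)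
      rw [hW v]; ring
    rw [this, h1]; ring
  have hlen : len w ≤ 2 * n := by
    rw [hw, len_single]; exact th_le _
  have hlen' : (len w : ℝ) ≤ 2 * n := by exact_mod_cast hlen
  have h3 : ∀ v, |(F v - F (v + w)) * W v| ≤ 2 * (n * L * B) := by
    intro v
    rw [abs_mul]
    have h4 : |F v - F (v + w)| ≤ L * (2 * n) := by
      have e1 := hF v w
      have e2 := hF (v + w) (-w)
      rw [add_neg_cancel_right, len_neg] at e2
      have e3 : L * (len w : ℝ) ≤ L * (2 * n) := mul_le_mul_of_nonneg_left hlen' hL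
      rw [abs_le]; constructor <;> linarith
    calc |F v - F (v + w)| * |W v| ≤ (L * (2 * n)) * B :=
          mul_le_mul h4 (hWB v) (abs_nonneg _) (by positivity)
      _ = 2 * (n * L * B) := by ring
  have h5 : |∑ v, (F v - F (v + w)) * W v| ≤ ∑ v : Gp n k, 2 * (n * L * B) :=
    le_trans (Finset.abs_sum_le_sum_abs _ _) (Finset.sum_le_sum (fun v _ => h3 v))
  rw [← h2, Finset.sum_const, nsmul_eq_mul, Finset.card_univ, abs_mul, abs_two] at h5
  linarith

/-- product of perturbed factors is close to one -/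
theorem prod_sub_one (s : Finset (Fin k)) (a : ℝ) (ha : 0 ≤ a) (hka : (k : ℝ) * a ≤ 1 / 2)
    (x : Fin k → ℝ) (hx : ∀ i, |x i| ≤ 1) :
    |∏ i ∈ s, (1 + a * x i) - 1| ≤ 2 * (s.card : ℝ) * a := by
  induction s using Finset.induction_on with
  | empty => simp
  | insert j s hj ih =>
    rw [Finset.prod_insert hj, Finset.card_insert_of_notMem hj]
    have hc : (s.card : ℝ) ≤ k := by
      have := Finset.card_le_univ s
      rw [Fintype.card_fin] at this
      exact_mod_cast this
    have h1 : |a * x j| ≤ a := by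
      rw [abs_mul, abs_of_nonneg ha]
      exact mul_le_of_le_one_right ha (hx j)
    have h2 : (1 + a * x j) * ∏ i ∈ s, (1 + a * x i) - 1 =
        (∏ i ∈ s, (1 + a * x i) - 1) + a * x j * (∏ i ∈ s, (1 + a * x i) - 1) + a * x j := by ring
    have h3 : |a * x j * (∏ i ∈ s, (1 + a * x i) - 1)| ≤ a * (2 * (s.card : ℝ) * a) := by
      rw [abs_mul]
      exact mul_le_mul h1 ih (abs_nonneg _) ha
    have h4 : a * (2 * (s.card : ℝ) * a) ≤ a := by
      have : 2 * (s.card : ℝ) * a ≤ 1 := by nlinarith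
      nlinarith
    rw [h2]
    have h5 := abs_add_three (∏ i ∈ s, (1 + a * x i) - 1) (a * x j * (∏ i ∈ s, (1 + a * x i) - 1)) (a * x j)
    push_cast
    nlinarith

/-- the first order part of the Riesz product -/
theorem riesz_first_order (F : Gp n k → ℝ) (L a : ℝ) (hL : 0 ≤ L) (ha : 0 ≤ a)
    (hka : (k : ℝ) * a ≤ 1 / 2) (hF : ∀ v u, F (v + u) ≤ F v + L * len u) (s : Finset (Fin k)) :
    |∑ v, F v * (∏ i ∈ s, (1 + a * sg (hom i v)) - 1 - a * ∑ i ∈ s, sg (hom i v))| ≤
      (Fintype.card (Gp n k) : ℝ) * (s.card * (a * (n * L * (2 * k * a)))) := by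
  induction s using Finset.induction_on with
  | empty => simp
  | insert j s hj ih =>
    have hc : (s.card : ℝ) ≤ k := by
      have := Finset.card_le_univ s
      rw [Fintype.card_fin] at this
      exact_mod_cast this
    have h1 : ∑ v, F v * (∏ i ∈ insert j s, (1 + a * sg (hom i v)) - 1 -
          a * ∑ i ∈ insert j s, sg (hom i v)) =
        ∑ v, F v * (∏ i ∈ s, (1 + a * sg (hom i v)) - 1 - a * ∑ i ∈ s, sg (hom i v)) +
        a * ∑ v, F v * (sg (hom j v) * (∏ i ∈ s, (1 + a * sg (hom i v)) - 1)) := by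
      rw [Finset.mul_sum, ← Finset.sum_add_distrib]
      refine Finset.sum_congr rfl (fun v _ => ?_)
      rw [Finset.prod_insert hj, Finset.sum_insert hj]
      ring
    have h2 : |∑ v, F v * (sg (hom j v) * (∏ i ∈ s, (1 + a * sg (hom i v)) - 1))| ≤
        (Fintype.card (Gp n k) : ℝ) * (n * L * (2 * k * a)) := by
      refine flip_bound j F _ L (2 * k * a) hL hF ?_ ?_
      · intro v
        have e1 : hom j (v + Pi.single (stepAt j) ((2 * n : ℕ) : ZMod (4 * n))) =
            hom j v + ((2 * n : ℕ) : ZMod (4 * n)) := by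
          rw [hom_add, hom_stepAt, if_pos rfl]
        have e2 : ∀ i ∈ s, hom i (v + Pi.single (stepAt j) ((2 * n : ℕ) : ZMod (4 * n))) = hom i v := by
          intro i hi
          rw [hom_add, hom_stepAt, if_neg, add_zero]
          rintro rfl
          exact hj hi
        rw [e1, sg_shift, Finset.prod_congr rfl (fun i hi => by rw [e2 i hi])]
        ring
      · intro v
        rw [abs_mul, abs_sg, one_mul]
        refine le_trans (prod_sub_one s a ha hka _ (fun i => le_of_eq (abs_sg _))) ?_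
        have : 2 * (s.card : ℝ) * a ≤ 2 * k * a := by
          have := mul_le_mul_of_nonneg_right hc ha
          nlinarith
        exact this
    rw [h1, Finset.card_insert_of_notMem hj]
    refine le_trans (abs_add_le _ _) ?_
    rw [abs_mul, abs_of_nonneg ha]
    have h3 := mul_le_mul_of_nonneg_left h2 ha
    push_cast
    nlinarith

/-- the random shift -/
theorem riesz_shift (F : Gp n k → ℝ) (L : ℝ)
    (hF : ∀ v u, F (v + u) ≤ F v + L * len u) :
    ∑ v, F v * ∏ i : Fin k, (1 + (1 / (2 * n : ℝ)) * sg (hom i v)) ≤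
      ∑ v, F v + (Fintype.card (Gp n k) : ℝ) * L := by
  have hn : (0 : ℝ) < n := by exact_mod_cast (npos (n := n))
  set p : ZMod (4 * n) → ℝ := fun t => th t / (2 * n) with hp
  have hp0 : ∀ t, 0 ≤ p t := fun t => by rw [hp]; positivity
  have hp1 : ∀ t, p t ≤ 1 := fun t => by
    rw [hp]
    simp only
    rw [div_le_one (by positivity)]
    exact_mod_cast th_le t
  have hstep : ∀ t, 1 + (1 / (2 * n : ℝ)) * sg t = p (t + 1) + (1 - p t) := by
    intro t
    rw [← th_succ]
    simp only [hp]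
    ring
  have hexp : ∀ v : Gp n k, ∏ i : Fin k, (1 + (1 / (2 * n : ℝ)) * sg (hom i v)) =
      ∑ T ∈ (Finset.univ : Finset (Fin k)).powerset,
        (∏ i ∈ T, p (hom i v + 1)) * ∏ i ∈ Finset.univ \ T, (1 - p (hom i v)) := by
    intro v
    rw [Finset.prod_congr rfl (fun i _ => hstep (hom i v)), Finset.prod_add]
  have hone : ∀ v : Gp n k, ∑ T ∈ (Finset.univ : Finset (Fin k)).powerset,
        (∏ i ∈ T, p (hom i v)) * ∏ i ∈ Finset.univ \ T, (1 - p (hom i v)) = 1 := by
    intro v
    rw [← Finset.prod_add]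
    simp
  calc ∑ v, F v * ∏ i : Fin k, (1 + (1 / (2 * n : ℝ)) * sg (hom i v))
      = ∑ v, ∑ T ∈ (Finset.univ : Finset (Fin k)).powerset, F v *
        ((∏ i ∈ T, p (hom i v + 1)) * ∏ i ∈ Finset.univ \ T, (1 - p (hom i v))) := by
        refine Finset.sum_congr rfl (fun v _ => ?_)
        rw [hexp v, Finset.mul_sum]
    _ = ∑ T ∈ (Finset.univ : Finset (Fin k)).powerset, ∑ v, F v *
        ((∏ i ∈ T, p (hom i v + 1)) * ∏ i ∈ Finset.univ \ T, (1 - p (hom i v))) :=
        Finset.sum_comm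
    _ = ∑ T ∈ (Finset.univ : Finset (Fin k)).powerset, ∑ v, F (v - Pi.single (stepSet T) 1) *
        ((∏ i ∈ T, p (hom i v)) * ∏ i ∈ Finset.univ \ T, (1 - p (hom i v))) := by
        refine Finset.sum_congr rfl (fun T _ => ?_)
        rw [← sum_shift_sub (Pi.single (stepSet T) 1)]
        refine Finset.sum_congr rfl (fun v _ => ?_)
        congr 1
        congr 1
        · refine Finset.prod_congr rfl (fun i hi => ?_)
          rw [hom_sub, hom_stepSet, if_pos hi, sub_add_cancel]
        · refine Finset.prod_congr rfl (fun i hi => ?_)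
          rw [hom_sub, hom_stepSet, if_neg (Finset.mem_sdiff.mp hi).2, sub_zero]
    _ ≤ ∑ T ∈ (Finset.univ : Finset (Fin k)).powerset, ∑ v, (F v + L) *
        ((∏ i ∈ T, p (hom i v)) * ∏ i ∈ Finset.univ \ T, (1 - p (hom i v))) := by
        refine Finset.sum_le_sum (fun T _ => Finset.sum_le_sum (fun v _ => ?_))
        refine mul_le_mul_of_nonneg_right ?_ ?_
        · have := hF v (-(Pi.single (stepSet T) 1))
          rw [len_neg, len_single, th_one] at this
          simpa [sub_eq_add_neg] using this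
        · refine mul_nonneg (Finset.prod_nonneg (fun i _ => hp0 _))
            (Finset.prod_nonneg (fun i _ => ?_))
          linarith [hp1 (hom i v)]
    _ = ∑ v, ∑ T ∈ (Finset.univ : Finset (Fin k)).powerset, (F v + L) *
        ((∏ i ∈ T, p (hom i v)) * ∏ i ∈ Finset.univ \ T, (1 - p (hom i v))) :=
        Finset.sum_comm
    _ = ∑ v, (F v + L) := by
        refine Finset.sum_congr rfl (fun v _ => ?_)
        rw [← Finset.mul_sum, hone v, mul_one]
    _ = ∑ v, F v + (Fintype.card (Gp n k) : ℝ) * L := by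
        rw [Finset.sum_add_distrib, Finset.sum_const, nsmul_eq_mul, Finset.card_univ]

/-- Lipschitz functions against the sum of square waves -/
theorem lip_sum_le (hnk : k ^ 2 ≤ n) (F : Gp n k → ℝ) (L : ℝ) (hL : 0 ≤ L)
    (hF : ∀ v u, F (v + u) ≤ F v + L * len u) :
    ∑ v, F v * ∑ i, sg (hom i v) ≤ (Fintype.card (Gp n k) : ℝ) * (3 * n * L) := by
  have hn : (0 : ℝ) < n := by exact_mod_cast (npos (n := n))
  have hk2 : (k : ℝ) ^ 2 ≤ n := by exact_mod_cast hnk
  have hk1 : (k : ℝ) ≤ n := by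
    have : k ≤ k ^ 2 := Nat.le_self_pow (by norm_num) k
    exact_mod_cast this.trans hnk
  set a : ℝ := 1 / (2 * n : ℝ) with ha
  have ha0 : 0 ≤ a := by rw [ha]; positivity
  have hna : (n : ℝ) * a = 1 / 2 := by rw [ha]; field_simp
  have hka : (k : ℝ) * a ≤ 1 / 2 := by rw [← hna]; exact mul_le_mul_of_nonneg_right hk1 ha0
  have h1 := riesz_first_order F L a hL ha0 hka hF Finset.univ
  have h2 := riesz_shift F L hF
  rw [← ha] at h2
  rw [Finset.card_univ, Fintype.card_fin] at h1
  set K : ℝ := (Fintype.card (Gp n k) : ℝ) with hK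
  have hK0 : 0 ≤ K := by rw [hK]; positivity
  have h3 : ∑ v, F v * (∏ i ∈ Finset.univ, (1 + a * sg (hom i v)) - 1 - a * ∑ i ∈ Finset.univ, sg (hom i v))
      = ∑ v, F v * ∏ i : Fin k, (1 + a * sg (hom i v)) - ∑ v, F v - a * ∑ v, F v * ∑ i, sg (hom i v) := by
    rw [Finset.mul_sum, ← Finset.sum_sub_distrib, ← Finset.sum_sub_distrib]
    refine Finset.sum_congr rfl (fun v _ => ?_)
    ring
  rw [h3] at h1
  have h4 := (abs_le.mp h1).1
  have h5 : a * ∑ v, F v * ∑ i, sg (hom i v) ≤ K * L + K * (k * (a * (n * L * (2 * k * a)))) := by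
    linarith
  have h6 : (k : ℝ) * (a * (n * L * (2 * k * a))) ≤ (1 / 2) * L := by
    have : (k : ℝ) * (a * (n * L * (2 * k * a))) = (k ^ 2 * a) * (2 * (n * a)) * L := by ring
    rw [this, hna]
    have : (k : ℝ) ^ 2 * a ≤ 1 / 2 := by
      rw [← hna]; exact mul_le_mul_of_nonneg_right hk2 ha0
    nlinarith
  have h7 : a * ∑ v, F v * ∑ i, sg (hom i v) ≤ a * (K * (3 * n * L)) := by
    calc a * ∑ v, F v * ∑ i, sg (hom i v) ≤ K * L + K * ((1 / 2) * L) := by
          linarith [mul_le_mul_of_nonneg_left h6 hK0]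
      _ = (n * a) * (K * (3 * L)) := by rw [hna]; ring
      _ = a * (K * (3 * n * L)) := by ring
  have ha' : 0 < a := by rw [ha]; positivity
  exact le_of_mul_le_mul_left h7 ha'

/-- orthogonality -/
theorem sum_sq_waves : ∑ v : Gp n k, (∑ i, sg (hom i v)) ^ 2 = (Fintype.card (Gp n k) : ℝ) * k := by
  have h0 : ∀ i j : Fin k, i ≠ j → ∑ v : Gp n k, sg (hom i v) * sg (hom j v) = 0 := by
    intro i j hij
    have h1 := sum_shift (Pi.single (stepAt i) ((2 * n : ℕ) : ZMod (4 * n)) : Gp n k)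
      (fun v => sg (hom i v) * sg (hom j v))
    have h2 : ∀ v : Gp n k, sg (hom i (v + Pi.single (stepAt i) ((2 * n : ℕ) : ZMod (4 * n)))) *
        sg (hom j (v + Pi.single (stepAt i) ((2 * n : ℕ) : ZMod (4 * n)))) =
        - (sg (hom i v) * sg (hom j v)) := by
      intro v
      rw [hom_add, hom_add, hom_stepAt, hom_stepAt, if_pos rfl, if_neg (Ne.symm hij), add_zero,
        sg_shift]
      ring
    rw [Finset.sum_congr rfl (fun v _ => h2 v), Finset.sum_neg_distrib] at h1
    linarith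
  have h1 : ∀ v : Gp n k, (∑ i, sg (hom i v)) ^ 2 = ∑ i, ∑ j, sg (hom i v) * sg (hom j v) := by
    intro v
    rw [sq, Finset.sum_mul_sum]
  rw [Finset.sum_congr rfl (fun v _ => h1 v), Finset.sum_comm]
  have h2 : ∀ i : Fin k, ∑ v : Gp n k, ∑ j, sg (hom i v) * sg (hom j v) =
      (Fintype.card (Gp n k) : ℝ) := by
    intro i
    rw [Finset.sum_comm, Finset.sum_eq_single i]
    · rw [Finset.sum_congr rfl (fun v _ => sg_sq _)]
      simp
    · intro j _ hj
      exact h0 i j (Ne.symm hj)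
    · intro h; exact absurd (Finset.mem_univ i) h
  rw [Finset.sum_congr rfl (fun i _ => h2 i), Finset.sum_const, nsmul_eq_mul, Finset.card_univ,
    Fintype.card_fin]
  ring

theorem sum_abs_waves (hk : 0 < k) :
    ∑ v : Gp n k, |∑ i, sg (hom i v)| ≤ (Fintype.card (Gp n k) : ℝ) * Real.sqrt k := by
  have hk' : (0 : ℝ) < k := by exact_mod_cast hk
  have hs : 0 < Real.sqrt k := Real.sqrt_pos.mpr hk'
  have hss : Real.sqrt k * Real.sqrt k = k := Real.mul_self_sqrt hk'.le
  have h1 : ∀ v : Gp n k, |∑ i, sg (hom i v)| ≤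
      (Real.sqrt k + (∑ i, sg (hom i v)) ^ 2 / Real.sqrt k) / 2 := by
    intro v
    set D := ∑ i, sg (hom i v)
    rw [le_div_iff₀ (by norm_num), ← sub_nonneg]
    have : Real.sqrt k + D ^ 2 / Real.sqrt k - |D| * 2 = (|D| - Real.sqrt k) ^ 2 / Real.sqrt k := by
      rw [← sq_abs D]
      field_simp
      ring
    rw [this]
    positivity
  refine le_trans (Finset.sum_le_sum (fun v _ => h1 v)) ?_
  rw [← Finset.sum_div, Finset.sum_add_distrib, ← Finset.sum_div, sum_sq_waves, Finset.sum_const,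
    nsmul_eq_mul, Finset.card_univ]
  have : (Fintype.card (Gp n k) : ℝ) * k / Real.sqrt k = (Fintype.card (Gp n k) : ℝ) * Real.sqrt k := by
    rw [div_eq_iff hs.ne', mul_assoc, hss]
  rw [this]
  linarith

/-- inf-convolution -/
theorem exists_infconv (F : Gp n k → ℝ) (L δ : ℝ) (hL : 0 ≤ L)
    (hF : ∀ v u, F v ≤ F (v + u) + L * len u + δ) :
    ∃ Fs : Gp n k → ℝ, (∀ v, Fs v ≤ F v) ∧ (∀ v, F v ≤ Fs v + δ) ∧
      ∀ v u, Fs (v + u) ≤ Fs v + L * len u := by
  have hne : (Finset.univ : Finset (Gp n k)).Nonempty := ⟨0, Finset.mem_univ _⟩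
  refine ⟨fun v => Finset.univ.inf' hne (fun u => F (v + u) + L * len u), ?_, ?_, ?_⟩
  · intro v
    have := Finset.inf'_le (s := Finset.univ) (fun u => F (v + u) + L * len u) (Finset.mem_univ (0 : Gp n k))
    rwa [len_zero, Nat.cast_zero, mul_zero, add_zero, add_zero] at this
  · intro v
    obtain ⟨u, -, hu⟩ := Finset.exists_mem_eq_inf' hne (fun u => F (v + u) + L * len u)
    simp only at hu ⊢
    rw [hu]
    exact hF v u
  · intro v w
    obtain ⟨u, -, hu⟩ := Finset.exists_mem_eq_inf' hne (fun u => F (v + u) + L * len u)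
    have h1 := Finset.inf'_le (s := Finset.univ) (fun u => F (v + w + u) + L * len u)
      (Finset.mem_univ (u - w : Gp n k))
    simp only at hu h1 ⊢
    rw [hu]
    refine le_trans h1 ?_
    rw [show v + w + (u - w) = v + u by abel]
    have h2 : len (u - w) ≤ len u + len w := by
      have := len_add_le u (-w)
      rwa [len_neg, ← sub_eq_add_neg] at this
    have h3 : (len (u - w) : ℝ) ≤ len u + len w := by exact_mod_cast h2
    have h4 := mul_le_mul_of_nonneg_left h3 hL
    linarith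

theorem rpow_aux (α s l : ℝ) (hα0 : 0 ≤ α) (hα1 : α ≤ 1) (hs : 0 < s) (hl : 0 ≤ l) :
    l ^ α ≤ s ^ (α - 1) * l + s ^ α := by
  rcases le_or_gt l s with h | h
  · have h1 := Real.rpow_le_rpow hl h hα0
    have h2 : 0 ≤ s ^ (α - 1) * l := by positivity
    linarith
  · have h0 : 0 < l := lt_trans hs h
    have h1 := Real.rpow_le_rpow_of_nonpos hs h.le (by linarith : α - 1 ≤ 0)
    have h2 : l ^ α = l ^ (α - 1) * l := by
      rw [← Real.rpow_add_one h0.ne']
      congr 1; ring
    have h3 : 0 ≤ s ^ α := by positivity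
    rw [h2]
    have := mul_le_mul_of_nonneg_right h1 hl
    linarith

/-- Hoelder functions against the sum of square waves -/
theorem holder_sum_le (hk : 0 < k) (hnk : k ^ 2 ≤ n) (α Λ : ℝ) (hα0 : 0 ≤ α) (hα1 : α ≤ 1)
    (hΛ : 0 ≤ Λ) (F : Gp n k → ℝ) (hF : ∀ v u, F v ≤ F (v + u) + Λ * (2 * len u : ℝ) ^ α) :
    ∑ v, F v * ∑ i, sg (hom i v) ≤
      (Fintype.card (Gp n k) : ℝ) * (4 * Λ * (2 * n : ℝ) ^ α * (Real.sqrt k) ^ (1 - α)) := by
  have hn : (0 : ℝ) < n := by exact_mod_cast (npos (n := n))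
  have hk' : (0 : ℝ) < k := by exact_mod_cast hk
  have hr : 0 < Real.sqrt k := Real.sqrt_pos.mpr hk'
  set r := Real.sqrt k with hrdef
  set s : ℝ := n / r with hs
  have hs0 : 0 < s := by rw [hs]; positivity
  set L : ℝ := Λ * 2 ^ α * s ^ (α - 1) with hL
  have hL0 : 0 ≤ L := by rw [hL]; positivity
  set δ : ℝ := Λ * 2 ^ α * s ^ α with hδ
  have hδ0 : 0 ≤ δ := by rw [hδ]; positivity
  obtain ⟨Fs, h1, h2, h3⟩ := exists_infconv F L δ hL0 (by
    intro v u
    have e1 := hF v u
    have e2 : (2 * len u : ℝ) ^ α = 2 ^ α * (len u : ℝ) ^ α :=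
      Real.mul_rpow (by norm_num) (Nat.cast_nonneg _)
    have e3 := rpow_aux α s (len u) hα0 hα1 hs0 (Nat.cast_nonneg _)
    have e4 : Λ * (2 * len u : ℝ) ^ α ≤ L * len u + δ := by
      rw [e2, hL, hδ]
      have := mul_le_mul_of_nonneg_left e3 (by positivity : 0 ≤ Λ * (2 : ℝ) ^ α)
      linarith
    linarith)
  have h4 := lip_sum_le hnk Fs L hL0 h3
  have h5 : ∑ v, F v * ∑ i, sg (hom i v) ≤ ∑ v, Fs v * ∑ i, sg (hom i v) +
      δ * ∑ v : Gp n k, |∑ i, sg (hom i v)| := by
    rw [Finset.mul_sum, ← Finset.sum_add_distrib]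
    refine Finset.sum_le_sum (fun v _ => ?_)
    have e1 : (F v - Fs v) * ∑ i, sg (hom i v) ≤ δ * |∑ i, sg (hom i v)| := by
      refine le_trans (le_abs_self _) ?_
      rw [abs_mul]
      refine mul_le_mul_of_nonneg_right ?_ (abs_nonneg _)
      rw [abs_le]
      constructor <;> linarith [h1 v, h2 v]
    linarith
  have h6 := mul_le_mul_of_nonneg_left (sum_abs_waves (n := n) hk) hδ0
  have hK0 : (0 : ℝ) ≤ Fintype.card (Gp n k) := Nat.cast_nonneg _
  set K : ℝ := (Fintype.card (Gp n k) : ℝ) with hK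
  have e5 : s ^ (α - 1) * n = (n : ℝ) ^ α * r ^ (1 - α) := by
    rw [hs, Real.div_rpow hn.le hr.le, div_mul_eq_mul_div]
    have : (n : ℝ) ^ (α - 1) * n = (n : ℝ) ^ α := by
      rw [← Real.rpow_add_one hn.ne']; congr 1; ring
    rw [this, div_eq_mul_inv, ← Real.rpow_neg hr.le]
    congr 2
    ring
  have e6 : s ^ α * r = (n : ℝ) ^ α * r ^ (1 - α) := by
    rw [hs, Real.div_rpow hn.le hr.le]
    have : r ^ (1 - α) = r / r ^ α := by
      rw [Real.rpow_sub hr, Real.rpow_one]
    rw [this]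
    field_simp
  have e7 : (2 * n : ℝ) ^ α = 2 ^ α * (n : ℝ) ^ α := Real.mul_rpow (by norm_num) hn.le
  calc ∑ v, F v * ∑ i, sg (hom i v) ≤ K * (3 * n * L) + δ * (K * r) := by linarith
    _ = K * (3 * (Λ * 2 ^ α) * (s ^ (α - 1) * n) + Λ * 2 ^ α * (s ^ α * r)) := by
        rw [hL, hδ]; ring
    _ = K * (4 * Λ * (2 * n : ℝ) ^ α * r ^ (1 - α)) := by
        rw [e5, e6, e7]; ring

/-- the same with signs -/
theorem holder_sum_signs (hk : 0 < k) (hnk : k ^ 2 ≤ n) (α Λ : ℝ) (hα0 : 0 ≤ α) (hα1 : α ≤ 1)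
    (hΛ : 0 ≤ Λ) (F : Gp n k → ℝ) (hF : ∀ v u, F v ≤ F (v + u) + Λ * (2 * len u : ℝ) ^ α)
    (ε : Fin k → Bool) :
    |∑ v, F v * ∑ i, (if ε i then (1 : ℝ) else -1) * sg (hom i v)| ≤
      (Fintype.card (Gp n k) : ℝ) * (4 * Λ * (2 * n : ℝ) ^ α * (Real.sqrt k) ^ (1 - α)) := by
  have key : ∀ ε : Fin k → Bool, ∑ v, F v * ∑ i, (if ε i then (1 : ℝ) else -1) * sg (hom i v) ≤
      (Fintype.card (Gp n k) : ℝ) * (4 * Λ * (2 * n : ℝ) ^ α * (Real.sqrt k) ^ (1 - α)) := by
    intro ε
    set w : Gp n k := Pi.single (fun i => if ε i then 0 else 1) ((2 * n : ℕ) : ZMod (4 * n)) with hw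
    have h1 : ∀ v : Gp n k, ∀ i, (if ε i then (1 : ℝ) else -1) * sg (hom i v) = sg (hom i (v + w)) := by
      intro v i
      rw [hom_add, hw, hom_single]
      split_ifs with h
      · simp
      · rw [SignType.coe_one, one_mul, sg_shift]; ring
    have h2 : ∑ v, F v * ∑ i, (if ε i then (1 : ℝ) else -1) * sg (hom i v) =
        ∑ v, F (v - w) * ∑ i, sg (hom i v) := by
      rw [← sum_shift w (fun v => F (v - w) * ∑ i, sg (hom i v))]
      refine Finset.sum_congr rfl (fun v _ => ?_)
      rw [add_sub_cancel_right]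
      congr 1
      exact Finset.sum_congr rfl (fun i _ => h1 v i)
    rw [h2]
    refine holder_sum_le hk hnk α Λ hα0 hα1 hΛ (fun v => F (v - w)) ?_
    intro v u
    have := hF (v - w) u
    rwa [show v - w + u = v + u - w by abel] at this
  rw [abs_le]
  constructor
  · have h1 := key (fun i => !(ε i))
    have h2 : ∑ v, F v * ∑ i, (if (!(ε i)) = true then (1 : ℝ) else -1) * sg (hom i v) =
        - ∑ v, F v * ∑ i, (if ε i then (1 : ℝ) else -1) * sg (hom i v) := by
      rw [← Finset.sum_neg_distrib]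
      refine Finset.sum_congr rfl (fun v _ => ?_)
      rw [← mul_neg, ← Finset.sum_neg_distrib]
      congr 1
      refine Finset.sum_congr rfl (fun i _ => ?_)
      cases ε i <;> simp
    rw [h2] at h1
    linarith
  · exact key ε

/-- lower bound -/
theorem tent_sum (i : Fin k) : ∑ v : Gp n k, tent (hom i v) * sg (hom i v) =
    (Fintype.card (Gp n k) : ℝ) * (n / 2) := by
  set w : Gp n k := Pi.single (stepAt i) (n : ZMod (4 * n)) with hw
  have h1 := sum_shift w (fun v => tent (hom i v) * sg (hom i v))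
  have h2 : ∑ v : Gp n k, (tent (hom i v) * sg (hom i v) + tent (hom i (v + w)) * sg (hom i (v + w))) =
      ∑ v : Gp n k, (n : ℝ) := by
    refine Finset.sum_congr rfl (fun v _ => ?_)
    rw [hom_add, hw, hom_stepAt, if_pos rfl]
    exact tent_pair _
  rw [Finset.sum_add_distrib, h1, Finset.sum_const, nsmul_eq_mul, Finset.card_univ] at h2
  linarith

theorem sum_wave (i : Fin k) : ∑ v : Gp n k, sg (hom i v) = 0 := by
  have h1 := sum_shift (Pi.single (stepAt i) ((2 * n : ℕ) : ZMod (4 * n)) : Gp n k)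
      (fun v => sg (hom i v))
  have h2 : ∀ v : Gp n k, sg (hom i (v + Pi.single (stepAt i) ((2 * n : ℕ) : ZMod (4 * n)))) =
        - sg (hom i v) := by
    intro v
    rw [hom_add, hom_stepAt, if_pos rfl, sg_shift]
  rw [Finset.sum_congr rfl (fun v _ => h2 v), Finset.sum_neg_distrib] at h1
  linarith

theorem tent_lip (i : Fin k) (v w : Gp n k) : |tent (hom i v) - tent (hom i w)| ≤ len (v - w) := by
  refine le_trans (abs_tent_sub _ _) ?_
  rw [← hom_sub]
  exact_mod_cast th_hom_le i (v - w)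

theorem tent_osc (i : Fin k) (v w : Gp n k) : |tent (hom i v) - tent (hom i w)| ≤ 2 * n := by
  refine le_trans (abs_tent_sub _ _) ?_
  exact_mod_cast th_le _

end

end LipFree
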