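import Mathlib

/-! Definitions: the space `Lip_0(M)`, the Lipschitz-free space, cotype, uniform copies of `l_p^N`. -/

namespace LipFree

/-- real Lipschitz functions on `M` vanishing at the base point `e`, as a submodule of `M → ℝ` -/
def lipSubmodule (M : Type*) [PseudoMetricSpace M] (e : M) : Submodule ℝ (M → ℝ) where
  carrier := {f | (∃ K : ℝ, ∀ x y, |f x - f y| ≤ K * dist x y) ∧ f e = 0}
  zero_mem' := ⟨⟨0, fun x y => by simp⟩, rfl⟩
  add_mem' := by
    rintro f g ⟨⟨K, hK⟩, hf⟩ ⟨⟨K', hK'⟩, hg⟩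
    refine ⟨⟨K + K', fun x y => ?_⟩, by simp [hf, hg]⟩
    have h : (f + g) x - (f + g) y = (f x - f y) + (g x - g y) := by
      simp only [Pi.add_apply]; ring
    rw [h, add_mul]
    exact le_trans (abs_add_le _ _) (add_le_add (hK x y) (hK' x y))
  smul_mem' := by
    rintro c f ⟨⟨K, hK⟩, hf⟩
    refine ⟨⟨|c| * K, fun x y => ?_⟩, by simp [hf]⟩
    have h : (c • f) x - (c • f) y = c * (f x - f y) := by
      simp only [Pi.smul_apply, smul_eq_mul]; ring
    rw [h, abs_mul, mul_assoc]
    exact mul_le_mul_of_nonneg_left (hK x y) (abs_nonneg c)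

/-- the space `Lip_0(M)` of real Lipschitz functions on `M` vanishing at the base point `e` -/
def Lip0 (M : Type*) [PseudoMetricSpace M] (e : M) : Type _ := lipSubmodule M e

section
variable {M : Type*} [PseudoMetricSpace M] {e : M}

instance : AddCommGroup (Lip0 M e) := (lipSubmodule M e).addCommGroup

instance : Module ℝ (Lip0 M e) := (lipSubmodule M e).module

instance : CoeFun (Lip0 M e) (fun _ => M → ℝ) := ⟨fun f => f.1⟩

/-- the norm of `Lip_0(M)` is the least Lipschitz constant -/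
noncomputable instance : Norm (Lip0 M e) :=
  ⟨fun f => sInf {K : ℝ | 0 ≤ K ∧ ∀ x y, |f x - f y| ≤ K * dist x y}⟩

theorem Lip0.add_apply (f g : Lip0 M e) (x : M) : (f + g) x = f x + g x := rfl

theorem Lip0.smul_apply (c : ℝ) (f : Lip0 M e) (x : M) : (c • f) x = c * f x := rfl

theorem Lip0.zero_apply (x : M) : (0 : Lip0 M e) x = 0 := rfl

theorem Lip0.apply_base (f : Lip0 M e) : f e = 0 := f.2.2

theorem Lip0.norm_def (f : Lip0 M e) :
    ‖f‖ = sInf {K : ℝ | 0 ≤ K ∧ ∀ x y, |f x - f y| ≤ K * dist x y} := rfl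

theorem Lip0.norm_nonneg' (f : Lip0 M e) : 0 ≤ ‖f‖ :=
  Real.sInf_nonneg (fun _ hK => hK.1)

theorem Lip0.norm_le (f : Lip0 M e) {K : ℝ} (h0 : 0 ≤ K) (h : ∀ x y, |f x - f y| ≤ K * dist x y) :
    ‖f‖ ≤ K :=
  csInf_le ⟨0, fun _ hK => hK.1⟩ ⟨h0, h⟩

theorem Lip0.nonempty (f : Lip0 M e) :
    {K : ℝ | 0 ≤ K ∧ ∀ x y, |f x - f y| ≤ K * dist x y}.Nonempty := by
  obtain ⟨K, hK⟩ := f.2.1
  exact ⟨|K|, abs_nonneg K, fun x y =>
    le_trans (hK x y) (mul_le_mul_of_nonneg_right (le_abs_self K) dist_nonneg)⟩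

theorem Lip0.le_norm (f : Lip0 M e) (x y : M) : |f x - f y| ≤ ‖f‖ * dist x y := by
  rcases eq_or_lt_of_le (dist_nonneg (x := x) (y := y)) with h | h
  · obtain ⟨K, hK⟩ := f.2.1
    have := hK x y
    rw [← h, mul_zero] at this ⊢
    exact this
  · rw [← div_le_iff₀ h]
    refine le_csInf f.nonempty (fun K hK => ?_)
    rw [div_le_iff₀ h]
    exact hK.2 x y

theorem Lip0.core : NormedSpace.Core ℝ (Lip0 M e) where
  norm_nonneg f := f.norm_nonneg'
  norm_smul c f := by
    rw [Real.norm_eq_abs]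
    apply le_antisymm
    · refine Lip0.norm_le _ (mul_nonneg (abs_nonneg c) f.norm_nonneg') (fun x y => ?_)
      rw [Lip0.smul_apply, Lip0.smul_apply, ← mul_sub, abs_mul, mul_assoc]
      exact mul_le_mul_of_nonneg_left (f.le_norm x y) (abs_nonneg c)
    · rcases eq_or_ne c 0 with rfl | hc
      · rw [abs_zero, zero_mul]; exact Lip0.norm_nonneg' _
      · have hc' : 0 < |c| := abs_pos.mpr hc
        rw [mul_comm, ← le_div_iff₀ hc']
        refine Lip0.norm_le _ (div_nonneg (Lip0.norm_nonneg' _) hc'.le) (fun x y => ?_)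
        have h := (c • f).le_norm x y
        rw [Lip0.smul_apply, Lip0.smul_apply, ← mul_sub, abs_mul] at h
        rw [div_mul_eq_mul_div, le_div_iff₀ hc']
        linarith
  norm_triangle f g := by
    refine Lip0.norm_le _ (add_nonneg f.norm_nonneg' g.norm_nonneg') (fun x y => ?_)
    rw [Lip0.add_apply, Lip0.add_apply, add_mul, show f x + g x - (f y + g y) =
      (f x - f y) + (g x - g y) by ring]
    exact le_trans (abs_add_le _ _) (add_le_add (f.le_norm x y) (g.le_norm x y))
  norm_eq_zero_iff f := by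
    constructor
    · intro h
      refine Subtype.ext (funext (fun x => ?_))
      have h1 := f.le_norm x e
      rw [h, zero_mul, f.apply_base, sub_zero] at h1
      exact abs_nonpos_iff.mp h1
    · rintro rfl
      refine le_antisymm (Lip0.norm_le _ le_rfl (fun x y => ?_)) (Lip0.norm_nonneg' _)
      rw [Lip0.zero_apply, Lip0.zero_apply]
      simp

noncomputable instance : NormedAddCommGroup (Lip0 M e) := NormedAddCommGroup.ofCore Lip0.core

noncomputable instance : NormedSpace ℝ (Lip0 M e) := NormedSpace.ofCore Lip0.core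

end

/-- the evaluation functional at `x`, an element of the dual of `Lip_0(M)` -/
noncomputable def delta {M : Type*} [PseudoMetricSpace M] (e x : M) : Lip0 M e →L[ℝ] ℝ :=
  LinearMap.mkContinuous
    { toFun := fun f => f x
      map_add' := fun _ _ => rfl
      map_smul' := fun _ _ => rfl } (dist x e) (fun f => by
        have h := f.le_norm x e
        rw [f.apply_base, sub_zero] at h
        rw [Real.norm_eq_abs, mul_comm]
        exact h)

/-- the Lipschitz-free space of `M` with base point `e`: the closed linear span of the evaluation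
functionals in the dual of `Lip_0(M)` -/
noncomputable def FreeSpace (M : Type*) [PseudoMetricSpace M] (e : M) :
    Submodule ℝ (Lip0 M e →L[ℝ] ℝ) :=
  (Submodule.span ℝ (Set.range (delta e))).topologicalClosure

/-- the Lipschitz-free space `F(M)` as a type, with the norm of the dual of `Lip_0(M)` -/
def Free (M : Type*) [PseudoMetricSpace M] (e : M) : Type _ := FreeSpace M e

noncomputable instance (M : Type*) [PseudoMetricSpace M] (e : M) : NormedAddCommGroup (Free M e) :=
  (FreeSpace M e).normedAddCommGroup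

noncomputable instance (M : Type*) [PseudoMetricSpace M] (e : M) : NormedSpace ℝ (Free M e) :=
  (FreeSpace M e).normedSpace

/-- the classical space `l_p` of real sequences -/
def EllP (p : ENNReal) : Type := lp (fun _ : ℕ => ℝ) p

noncomputable instance (p : ENNReal) [Fact (1 ≤ p)] : MetricSpace (EllP p) :=
  NormedAddCommGroup.toMetricSpace (E := lp (fun _ : ℕ => ℝ) p)

/-- Rademacher cotype `q` of a real normed space -/
def HasCotype (q : ℝ) (E : Type*) [NormedAddCommGroup E] [NormedSpace ℝ E] : Prop :=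
  ∃ C : ℝ, ∀ (k : ℕ) (x : Fin k → E),
    (∑ i, ‖x i‖ ^ q) ^ (1 / q) ≤
      C * Real.sqrt ((∑ ε : Fin k → Bool, ‖∑ i, (if ε i then (1 : ℝ) else -1) • x i‖ ^ 2) / 2 ^ k)

/-- uniformly non-small vectors whose signed sums grow at most like `k ^ s` -/
def SmallSignedSums (s : ℝ) (E : Type*) [NormedAddCommGroup E] [NormedSpace ℝ E] : Prop :=
  ∃ c C : ℝ, 0 < c ∧ ∀ k : ℕ, ∃ x : Fin k → E, (∀ i, c ≤ ‖x i‖) ∧
    ∀ ε : Fin k → Bool, ‖∑ i, (if ε i then (1 : ℝ) else -1) • x i‖ ≤ C * (k : ℝ) ^ s

/-- the metric space `X` contains all `l_p^N` uniformly in the bi-Lipschitz sense -/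
def ContainsEllP (p : ℝ) (X : Type*) [PseudoMetricSpace X] : Prop :=
  ∃ L : ℝ, ∀ N : ℕ, ∃ T : (Fin N → ℝ) → X, ∀ x y : Fin N → ℝ,
    (∑ i, |x i - y i| ^ p) ^ (1 / p) ≤ dist (T x) (T y) ∧
      dist (T x) (T y) ≤ L * (∑ i, |x i - y i| ^ p) ^ (1 / p)

end LipFree
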