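import Pool.Agent.Lib.MP_3ede0b_an.GT

/-! The inequality of cotype 2 type in the dual of `Lip_0(M)`. -/

namespace LipRad

open Finset LipFree

variable {M : Type*} [PseudoMetricSpace M] {e : M} {k : ℕ}

/-- the square norm of the functionals is tested by `1`-Lipschitz maps into `l_2^k` -/
theorem exists_test (m : Fin k → (Lip0 M e →L[ℝ] ℝ)) (η : ℝ) (hη : 0 < η) :
    ∃ g : Fin k → Lip0 M e, Lip2 (fun i => (g i : M → ℝ)) ∧
      Real.sqrt (∑ i, ‖m i‖ ^ 2) ≤ ∑ i, m i (g i) + η * k := by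
  classical
  set S : ℝ := Real.sqrt (∑ i, ‖m i‖ ^ 2) with hS
  have hS2 : S ^ 2 = ∑ i, ‖m i‖ ^ 2 := Real.sq_sqrt (sum_nonneg fun i _ => sq_nonneg _)
  have hS0 : 0 ≤ S := Real.sqrt_nonneg _
  rcases eq_or_lt_of_le hS0 with h0 | hpos
  · refine ⟨fun _ => 0, fun x y => ?_, ?_⟩
    · simp only [Lip0.zero_apply]
      simp
    · rw [← h0]
      simp only [map_zero, sum_const_zero, zero_add]
      positivity
  · have hf : ∀ i, ∃ f : Lip0 M e, ‖f‖ ≤ 1 ∧ ‖m i‖ - η ≤ m i f := by
      intro i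
      obtain ⟨x, hx1, hx2⟩ := (m i).exists_lt_apply_of_lt_opNorm (r := ‖m i‖ - η) (by linarith)
      rcases le_total 0 (m i x) with h | h
      · rw [Real.norm_eq_abs, abs_of_nonneg h] at hx2
        exact ⟨x, hx1.le, hx2.le⟩
      · rw [Real.norm_eq_abs, abs_of_nonpos h] at hx2
        refine ⟨-x, by rw [norm_neg]; exact hx1.le, ?_⟩
        rw [map_neg]; exact hx2.le
    choose f hf1 hf2 using hf
    have hle : ∀ i, ‖m i‖ / S ≤ 1 := by
      intro i
      rw [div_le_one hpos]
      apply Real.le_sqrt_of_sq_le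
      exact single_le_sum (f := fun i => ‖m i‖ ^ 2) (fun j _ => sq_nonneg _) (mem_univ i)
    refine ⟨fun i => (‖m i‖ / S) • f i, fun x y => ?_, ?_⟩
    · have h1 : ∀ i, (((‖m i‖ / S) • f i : Lip0 M e) x - ((‖m i‖ / S) • f i : Lip0 M e) y) ^ 2 ≤
          (‖m i‖ / S) ^ 2 * dist x y ^ 2 := by
        intro i
        rw [Lip0.smul_apply, Lip0.smul_apply, ← mul_sub, mul_pow]
        apply mul_le_mul_of_nonneg_left _ (sq_nonneg _)
        have h2 := (f i).le_norm x y
        have h3 : ‖f i‖ * dist x y ≤ dist x y := by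
          have := mul_le_mul_of_nonneg_right (hf1 i) (dist_nonneg (x := x) (y := y))
          linarith
        have h4 := abs_le.mp (h2.trans h3)
        exact sq_le_sq' (by linarith [h4.1]) h4.2
      calc _ ≤ ∑ i, (‖m i‖ / S) ^ 2 * dist x y ^ 2 := sum_le_sum fun i _ => h1 i
        _ = (∑ i, ‖m i‖ ^ 2) / S ^ 2 * dist x y ^ 2 := by
            rw [← sum_mul, sum_div]
            congr 1
            exact sum_congr rfl fun i _ => by rw [div_pow]
        _ = dist x y ^ 2 := by
            rw [← hS2, div_self (by positivity), one_mul]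
    · have h1 : ∀ i, ‖m i‖ ^ 2 / S - η ≤ m i ((‖m i‖ / S) • f i) := by
        intro i
        rw [map_smul, smul_eq_mul]
        have h2 := mul_le_mul_of_nonneg_left (hf2 i) (div_nonneg (norm_nonneg (m i)) hS0)
        have h3 : ‖m i‖ / S * η ≤ η := by
          have := mul_le_mul_of_nonneg_right (hle i) hη.le
          linarith
        have h4 : ‖m i‖ / S * (‖m i‖ - η) = ‖m i‖ ^ 2 / S - ‖m i‖ / S * η := by ring
        linarith
      have h5 : ∑ i, (‖m i‖ ^ 2 / S - η) ≤ ∑ i, m i ((‖m i‖ / S) • f i) :=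
        sum_le_sum fun i _ => h1 i
      rw [sum_sub_distrib, ← sum_div, ← hS2, sum_const, card_univ, Fintype.card_fin,
        nsmul_eq_mul] at h5
      have h6 : S ^ 2 / S = S := by field_simp
      rw [h6] at h5
      linarith [mul_comm η (k : ℝ)]

/-- the main inequality in the dual of `Lip_0(M)` -/
theorem dual_ineq (P : M → Finset (M × M)) (hch : Checks P 10) (D : ℝ) (hD : 2 ≤ D)
    (hP : ∀ x, ((P x).card : ℝ) ≤ D) (m : Fin k → (Lip0 M e →L[ℝ] ℝ)) :
    Real.sqrt (∑ i, ‖m i‖ ^ 2) ≤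
      20 * Real.sqrt (60 * Real.log D) * avg (fun ε => ‖∑ i, sg (ε i) • m i‖) := by
  classical
  set L : ℝ := 10 * Real.sqrt (60 * Real.log D) with hL
  have hL0 : 0 ≤ L := by positivity
  set A : ℝ := avg (fun ε => ‖∑ i, sg (ε i) • m i‖) with hA
  let T : Set ℝ := {r | ∃ g : Fin k → Lip0 M e, Lip2 (fun i => (g i : M → ℝ)) ∧
    r = ∑ i, m i (g i)}
  have hTne : T.Nonempty := by
    refine ⟨0, fun _ => 0, fun x y => ?_, by simp⟩
    simp only [Lip0.zero_apply]
    simp
  have hTbd : BddAbove T := by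
    refine ⟨∑ i, ‖m i‖, ?_⟩
    rintro r ⟨g, hg, rfl⟩
    refine sum_le_sum fun i _ => ?_
    have h1 : ‖g i‖ ≤ 1 := by
      refine Lip0.norm_le _ zero_le_one fun x y => ?_
      rw [one_mul]
      have h2 : (g i x - g i y) ^ 2 ≤ dist x y ^ 2 :=
        (single_le_sum (f := fun i => (g i x - g i y) ^ 2) (fun j _ => sq_nonneg _)
          (mem_univ i)).trans (hg x y)
      exact abs_le_of_sq_le_sq h2 dist_nonneg
    calc m i (g i) ≤ ‖m i (g i)‖ := Real.le_norm_self _
      _ ≤ ‖m i‖ * ‖g i‖ := (m i).le_opNorm _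
      _ ≤ ‖m i‖ := by
        have := mul_le_mul_of_nonneg_left h1 (norm_nonneg (m i))
        linarith
  have hkey : ∀ r ∈ T, r ≤ sSup T / 2 + L * A := by
    rintro r ⟨g, hg, rfl⟩
    obtain ⟨f, hf1, hf2⟩ := exists_lift P hch D hD hP (fun i => (g i : M → ℝ)) hg
    rw [← hL] at hf1
    -- the functions as elements of Lip_0
    let F : (Fin k → Bool) → Lip0 M e := fun ε =>
      ⟨fun x => f ε x - f ε e, ⟨L, fun x y => by
        have := hf1 ε x y
        have e1 : f ε x - f ε e - (f ε y - f ε e) = f ε x - f ε y := by ring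
        rw [e1]; exact this⟩, by simp⟩
    have hF : ∀ ε x, (F ε : M → ℝ) x = f ε x - f ε e := fun ε x => rfl
    have hFn : ∀ ε, ‖F ε‖ ≤ L := by
      intro ε
      refine Lip0.norm_le _ hL0 fun x y => ?_
      rw [hF, hF]
      have e1 : f ε x - f ε e - (f ε y - f ε e) = f ε x - f ε y := by ring
      rw [e1]; exact hf1 ε x y
    let c : ℝ := ((2 : ℝ) ^ k)⁻¹
    let g' : Fin k → Lip0 M e := fun i => (2 : ℝ) • (g i - c • ∑ ε, sg (ε i) • F ε)
    have hsum : ∀ (s : Finset (Fin k → Bool)) (i : Fin k) (x : M),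
        ((∑ ε ∈ s, sg (ε i) • F ε : Lip0 M e) : M → ℝ) x = ∑ ε ∈ s, sg (ε i) * F ε x := by
      intro s i x
      induction s using Finset.induction_on with
      | empty => simp only [sum_empty]; rfl
      | insert a s ha ih => rw [sum_insert ha, sum_insert ha, Lip0.add_apply, ih,
          Lip0.smul_apply]
    have hg'x : ∀ i x, (g' i : M → ℝ) x = 2 * (g i x - (avg (fun ε => sg (ε i) * f ε x) -
        avg (fun ε => sg (ε i) * f ε e))) := by
      intro i x
      have e1 : (g' i : M → ℝ) x = 2 * (g i x - c * ((∑ ε, sg (ε i) • F ε : Lip0 M e) x)) := rfl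
      rw [e1, hsum, ← avg_sub]
      simp only [avg, c, hF]
      congr 2
      rw [div_eq_inv_mul]
      congr 1
      exact sum_congr rfl fun ε _ => by ring
    have hg' : Lip2 (fun i => (g' i : M → ℝ)) := by
      intro x y
      have h1 := hf2 x y
      have e1 : ∀ i, ((g' i : M → ℝ) x - (g' i : M → ℝ) y) ^ 2 =
          4 * ((g i x - avg (fun ε => sg (ε i) * f ε x)) -
            (g i y - avg (fun ε => sg (ε i) * f ε y))) ^ 2 := by
        intro i
        rw [hg'x, hg'x]; ring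
      simp only [e1]
      rw [← mul_sum]
      have h2 := mul_le_mul_of_nonneg_left h1 (by norm_num : (0 : ℝ) ≤ 4)
      calc _ ≤ _ := h2
        _ = _ := by ring
    have hmem : (∑ i, m i (g' i)) ∈ T := ⟨g', hg', rfl⟩
    have hle := le_csSup hTbd hmem
    have hdec : ∑ i, m i (g i) = (∑ i, m i (g' i)) / 2 +
        avg (fun ε => (∑ i, sg (ε i) • m i) (F ε)) := by
      have e1 : ∀ i, m i (g' i) = 2 * (m i (g i) - c * ∑ ε, sg (ε i) * m i (F ε)) := by
        intro i
        simp only [g', map_smul, map_sub, map_sum, smul_eq_mul]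
      have e2 : avg (fun ε => (∑ i, sg (ε i) • m i) (F ε)) =
          ∑ i, c * ∑ ε, sg (ε i) * m i (F ε) := by
        have e3 : ∀ ε, (∑ i, sg (ε i) • m i) (F ε) = ∑ i, sg (ε i) * m i (F ε) := by
          intro ε
          rw [_root_.sum_apply]
          exact sum_congr rfl fun i _ => rfl
        simp only [e3]
        rw [avg_sum]
        refine sum_congr rfl fun i _ => ?_
        simp only [avg, c]
        rw [div_eq_inv_mul]
      rw [e2, sum_div, ← sum_add_distrib]
      refine sum_congr rfl fun i _ => ?_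
      rw [e1]; ring
    have hlast : avg (fun ε => (∑ i, sg (ε i) • m i) (F ε)) ≤ L * A := by
      rw [hA, ← avg_smul]
      refine avg_mono fun ε => ?_
      calc (∑ i, sg (ε i) • m i) (F ε) ≤ ‖(∑ i, sg (ε i) • m i) (F ε)‖ := Real.le_norm_self _
        _ ≤ ‖∑ i, sg (ε i) • m i‖ * ‖F ε‖ := ContinuousLinearMap.le_opNorm _ _
        _ ≤ ‖∑ i, sg (ε i) • m i‖ * L :=
            mul_le_mul_of_nonneg_left (hFn ε) (norm_nonneg _)
        _ = _ := mul_comm _ _
    rw [hdec]
    linarith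
  have hK : sSup T ≤ sSup T / 2 + L * A := csSup_le hTne hkey
  have hK2 : sSup T ≤ 2 * (L * A) := by linarith
  have hfin : Real.sqrt (∑ i, ‖m i‖ ^ 2) ≤ 2 * (L * A) := by
    refine le_of_forall_pos_le_add fun δ hδ => ?_
    obtain ⟨g, hg, hle⟩ := exists_test m (δ / (k + 1)) (by positivity)
    have h1 : ∑ i, m i (g i) ≤ sSup T := le_csSup hTbd ⟨g, hg, rfl⟩
    have h2 : δ / (k + 1) * k ≤ δ := by
      rw [div_mul_eq_mul_div, div_le_iff₀ (by positivity)]
      nlinarith
    linarith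
  calc _ ≤ _ := hfin
    _ = _ := by rw [hL]; ring

end LipRad
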