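import Mathlib

/-! Rademacher averages: exponential moments, tails, fourth moments, Bessel's inequality. -/

namespace LipRad

open Finset

/-- the sign of a bit -/
noncomputable def sg (b : Bool) : ℝ := if b then 1 else -1

theorem sg_true : sg true = 1 := by simp [sg]
theorem sg_false : sg false = -1 := by simp [sg]

theorem sg_sq (b : Bool) : sg b * sg b = 1 := by cases b <;> simp [sg]

theorem abs_sg (b : Bool) : |sg b| = 1 := by cases b <;> simp [sg]

/-- average over all choices of signs -/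
noncomputable def avg {k : ℕ} (φ : (Fin k → Bool) → ℝ) : ℝ := (∑ ε, φ ε) / 2 ^ k

variable {k : ℕ}

theorem avg_add (φ ψ : (Fin k → Bool) → ℝ) : avg (fun ε => φ ε + ψ ε) = avg φ + avg ψ := by
  simp only [avg, sum_add_distrib, add_div]

theorem avg_sub (φ ψ : (Fin k → Bool) → ℝ) : avg (fun ε => φ ε - ψ ε) = avg φ - avg ψ := by
  simp only [avg, sum_sub_distrib, sub_div]

theorem avg_smul (c : ℝ) (φ : (Fin k → Bool) → ℝ) : avg (fun ε => c * φ ε) = c * avg φ := by
  simp only [avg, ← mul_sum, mul_div_assoc]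

theorem avg_sum {ι : Type*} (s : Finset ι) (φ : ι → (Fin k → Bool) → ℝ) :
    avg (fun ε => ∑ i ∈ s, φ i ε) = ∑ i ∈ s, avg (φ i) := by
  simp only [avg]
  rw [sum_comm, sum_div]

theorem avg_mono {φ ψ : (Fin k → Bool) → ℝ} (h : ∀ ε, φ ε ≤ ψ ε) : avg φ ≤ avg ψ := by
  unfold avg
  gcongr with ε
  exact h ε

theorem avg_const (c : ℝ) : avg (fun _ : Fin k → Bool => c) = c := by
  simp [avg]

theorem avg_nonneg {φ : (Fin k → Bool) → ℝ} (h : ∀ ε, 0 ≤ φ ε) : 0 ≤ avg φ := by
  unfold avg
  exact div_nonneg (sum_nonneg fun ε _ => h ε) (by positivity)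

/-- Cauchy-Schwarz -/
theorem avg_mul_le (φ ψ : (Fin k → Bool) → ℝ) :
    avg (fun ε => φ ε * ψ ε) ≤
      Real.sqrt (avg (fun ε => φ ε ^ 2)) * Real.sqrt (avg (fun ε => ψ ε ^ 2)) := by
  have h := Finset.sum_mul_sq_le_sq_mul_sq (Finset.univ : Finset (Fin k → Bool)) φ ψ
  have h2 : (0 : ℝ) < 2 ^ k := by positivity
  rw [← Real.sqrt_mul (avg_nonneg fun ε => sq_nonneg _)]
  refine Real.le_sqrt_of_sq_le ?_
  unfold avg
  rw [div_pow, div_mul_div_comm, ← pow_two]
  exact div_le_div_of_nonneg_right h (by positivity)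

/-- exponential moments of a signed sum -/
theorem avg_exp (a : Fin k → ℝ) (t : ℝ) :
    avg (fun ε => Real.exp (t * ∑ i, sg (ε i) * a i)) ≤ Real.exp (t ^ 2 * (∑ i, a i ^ 2) / 2) := by
  have h1 : (∑ ε : Fin k → Bool, Real.exp (t * ∑ i, sg (ε i) * a i)) =
      ∏ i, ∑ b : Bool, Real.exp (t * (sg b * a i)) := by
    rw [Finset.prod_univ_sum]
    rw [Fintype.piFinset_univ]
    refine sum_congr rfl fun ε _ => ?_
    rw [mul_sum, Real.exp_sum]
  unfold avg
  rw [h1]
  have h2 : ∀ i : Fin k, ∑ b : Bool, Real.exp (t * (sg b * a i)) = 2 * Real.cosh (t * a i) := by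
    intro i
    rw [Fintype.sum_bool, sg_true, sg_false, Real.cosh_eq]
    have e1 : t * (1 * a i) = t * a i := by ring
    have e2 : t * (-1 * a i) = -(t * a i) := by ring
    rw [e1, e2]; ring
  rw [prod_congr rfl fun i _ => h2 i, prod_mul_distrib, prod_const, card_univ, Fintype.card_fin,
    mul_div_assoc, mul_comm, div_mul_cancel₀ _ (by positivity)]
  have h3 : t ^ 2 * (∑ i, a i ^ 2) / 2 = ∑ i, (t * a i) ^ 2 / 2 := by
    rw [mul_sum, sum_div]
    exact sum_congr rfl fun i _ => by ring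
  rw [h3, Real.exp_sum]
  exact prod_le_prod (fun i _ => (Real.cosh_pos _).le) fun i _ => Real.cosh_le_exp_half_sq _

/-- both signs -/
theorem avg_exp_neg (a : Fin k → ℝ) (t : ℝ) :
    avg (fun ε => Real.exp (-(t * ∑ i, sg (ε i) * a i))) ≤
      Real.exp (t ^ 2 * (∑ i, a i ^ 2) / 2) := by
  have h := avg_exp a (-t)
  have e : ∀ ε : Fin k → Bool, -(t * ∑ i, sg (ε i) * a i) = -t * ∑ i, sg (ε i) * a i := by
    intro ε; ring
  simp only [e]
  calc _ ≤ _ := h
    _ = _ := by congr 1; ring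

/-- the tail of a signed sum -/
theorem avg_tail (a : Fin k → ℝ) {v s : ℝ} (hv : 0 < v) (hs : 0 ≤ s) (ha : ∑ i, a i ^ 2 ≤ v) :
    avg (fun ε => if s < |∑ i, sg (ε i) * a i| then (1 : ℝ) else 0) ≤
      2 * Real.exp (-(s ^ 2 / (2 * v))) := by
  have hpt : ∀ ε : Fin k → Bool, (if s < |∑ i, sg (ε i) * a i| then (1 : ℝ) else 0) ≤
      Real.exp (-(s / v * s)) * (Real.exp (s / v * ∑ i, sg (ε i) * a i) +
        Real.exp (-(s / v * ∑ i, sg (ε i) * a i))) := by
    intro ε
    split_ifs with h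
    · rw [mul_add, ← Real.exp_add, ← Real.exp_add]
      rcases le_total 0 (∑ i, sg (ε i) * a i) with h0 | h0
      · rw [abs_of_nonneg h0] at h
        have h1 : 1 ≤ Real.exp (-(s / v * s) + s / v * ∑ i, sg (ε i) * a i) := by
          apply Real.one_le_exp
          have := mul_le_mul_of_nonneg_left h.le (div_nonneg hs hv.le)
          linarith
        linarith [Real.exp_pos (-(s / v * s) + -(s / v * ∑ i, sg (ε i) * a i))]
      · rw [abs_of_nonpos h0] at h
        have h1 : 1 ≤ Real.exp (-(s / v * s) + -(s / v * ∑ i, sg (ε i) * a i)) := by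
          apply Real.one_le_exp
          have := mul_le_mul_of_nonneg_left h.le (div_nonneg hs hv.le)
          linarith
        linarith [Real.exp_pos (-(s / v * s) + (s / v * ∑ i, sg (ε i) * a i))]
    · positivity
  calc _ ≤ _ := avg_mono hpt
    _ = Real.exp (-(s / v * s)) * (avg (fun ε => Real.exp (s / v * ∑ i, sg (ε i) * a i)) +
        avg (fun ε => Real.exp (-(s / v * ∑ i, sg (ε i) * a i)))) := by
        rw [avg_smul, avg_add]
    _ ≤ Real.exp (-(s / v * s)) * (Real.exp ((s / v) ^ 2 * v / 2) +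
        Real.exp ((s / v) ^ 2 * v / 2)) := by
        have h3 : Real.exp ((s / v) ^ 2 * (∑ i, a i ^ 2) / 2) ≤ Real.exp ((s / v) ^ 2 * v / 2) := by
          apply Real.exp_le_exp.mpr
          have := mul_le_mul_of_nonneg_left ha (sq_nonneg (s / v))
          linarith
        have h1 := (avg_exp a (s / v)).trans h3
        have h2 := (avg_exp_neg a (s / v)).trans h3
        exact mul_le_mul_of_nonneg_left (add_le_add h1 h2) (Real.exp_pos _).le
    _ = 2 * Real.exp (-(s ^ 2 / (2 * v))) := by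
        rw [← two_mul, mul_left_comm, ← Real.exp_add]
        congr 2
        field_simp
        ring

/-- fourth moments -/
theorem avg_fourth (a : Fin k → ℝ) {v : ℝ} (hv : 0 < v) (ha : ∑ i, a i ^ 2 ≤ v) :
    avg (fun ε => (∑ i, sg (ε i) * a i) ^ 4) ≤ 25 * v ^ 2 := by
  -- use t = 2 / sqrt v
  have hsv : 0 < Real.sqrt v := Real.sqrt_pos.mpr hv
  set t : ℝ := 2 / Real.sqrt v with ht
  have ht0 : 0 < t := by positivity
  have ht2 : t ^ 2 * v = 4 := by
    rw [ht, div_pow, Real.sq_sqrt hv.le]; field_simp; norm_num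
  have hpt : ∀ ε : Fin k → Bool, (t * ∑ i, sg (ε i) * a i) ^ 4 ≤
      24 * (Real.exp (t * ∑ i, sg (ε i) * a i) + Real.exp (-(t * ∑ i, sg (ε i) * a i))) := by
    intro ε
    set x := t * ∑ i, sg (ε i) * a i
    have h1 := Real.pow_div_factorial_le_exp |x| (abs_nonneg x) 4
    have h2 : Real.exp |x| ≤ Real.exp x + Real.exp (-x) := by
      rcases le_total 0 x with h | h
      · rw [abs_of_nonneg h]; linarith [Real.exp_pos (-x)]
      · rw [abs_of_nonpos h]; linarith [Real.exp_pos x]
    have h3 : |x| ^ 4 = x ^ 4 := by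
      rw [← abs_pow]; exact abs_of_nonneg (by positivity)
    rw [h3] at h1
    have h4 : ((Nat.factorial 4 : ℕ) : ℝ) = 24 := by norm_num [Nat.factorial]
    rw [h4, div_le_iff₀ (by norm_num)] at h1
    linarith
  have h5 : avg (fun ε => (t * ∑ i, sg (ε i) * a i) ^ 4) ≤ 24 * (2 * Real.exp 2) := by
    calc _ ≤ _ := avg_mono hpt
      _ = 24 * (avg (fun ε => Real.exp (t * ∑ i, sg (ε i) * a i)) +
        avg (fun ε => Real.exp (-(t * ∑ i, sg (ε i) * a i)))) := by
          rw [avg_smul, avg_add]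
      _ ≤ 24 * (Real.exp 2 + Real.exp 2) := by
          have h3 : Real.exp (t ^ 2 * (∑ i, a i ^ 2) / 2) ≤ Real.exp 2 := by
            apply Real.exp_le_exp.mpr
            have := mul_le_mul_of_nonneg_left ha (sq_nonneg t)
            linarith
          have h1 := (avg_exp a t).trans h3
          have h2 := (avg_exp_neg a t).trans h3
          linarith
      _ = _ := by ring
  have h6 : avg (fun ε => (t * ∑ i, sg (ε i) * a i) ^ 4) =
      t ^ 4 * avg (fun ε => (∑ i, sg (ε i) * a i) ^ 4) := by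
    rw [← avg_smul]; congr 1; ext ε; ring
  rw [h6] at h5
  have ht4 : t ^ 4 * v ^ 2 = 16 := by
    have : t ^ 4 * v ^ 2 = (t ^ 2 * v) ^ 2 := by ring
    rw [this, ht2]; norm_num
  have he : Real.exp 2 ≤ 7.3891 := by
    have h1 := Real.exp_one_lt_d9
    have h2 : Real.exp 2 = Real.exp 1 * Real.exp 1 := by rw [← Real.exp_add]; norm_num
    rw [h2]
    nlinarith [Real.exp_pos 1]
  have h7 : t ^ 4 * avg (fun ε => (∑ i, sg (ε i) * a i) ^ 4) ≤ t ^ 4 * (25 * v ^ 2) := by
    calc _ ≤ _ := h5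
      _ ≤ 25 * (t ^ 4 * v ^ 2) := by rw [ht4]; nlinarith
      _ = _ := by ring
  exact le_of_mul_le_mul_left h7 (by positivity)

/-- flipping one sign -/
def flip (i : Fin k) : (Fin k → Bool) ≃ (Fin k → Bool) where
  toFun ε := Function.update ε i (!ε i)
  invFun ε := Function.update ε i (!ε i)
  left_inv ε := by
    ext j
    by_cases h : j = i
    · subst h; simp
    · simp [Function.update_of_ne h]
  right_inv ε := by
    ext j
    by_cases h : j = i
    · subst h; simp
    · simp [Function.update_of_ne h]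

theorem sg_not (b : Bool) : sg (!b) = -sg b := by cases b <;> simp [sg]

theorem avg_sg_mul_sg (i j : Fin k) :
    avg (fun ε => sg (ε i) * sg (ε j)) = if i = j then 1 else 0 := by
  split_ifs with h
  · subst h
    simp only [sg_sq]
    exact avg_const 1
  · have h1 : (∑ ε : Fin k → Bool, sg (ε i) * sg (ε j)) =
        ∑ ε : Fin k → Bool, -(sg (ε i) * sg (ε j)) := by
      rw [← (flip i).sum_comp]
      refine sum_congr rfl fun ε _ => ?_
      have e1 : flip i ε i = !ε i := by simp [flip]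
      have e2 : flip i ε j = ε j := by
        simp only [flip, Equiv.coe_fn_mk]
        exact Function.update_of_ne (Ne.symm h) _ _
      rw [e1, e2, sg_not]; ring
    rw [sum_neg_distrib] at h1
    have h2 : (∑ ε : Fin k → Bool, sg (ε i) * sg (ε j)) = 0 := by linarith
    simp [avg, h2]

/-- second moments -/
theorem avg_sq (a : Fin k → ℝ) :
    avg (fun ε => (∑ i, sg (ε i) * a i) ^ 2) = ∑ i, a i ^ 2 := by
  have h : ∀ ε : Fin k → Bool, (∑ i, sg (ε i) * a i) ^ 2 =
      ∑ i, ∑ j, (a i * a j) * (sg (ε i) * sg (ε j)) := by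
    intro ε
    rw [pow_two, sum_mul_sum]
    exact sum_congr rfl fun i _ => sum_congr rfl fun j _ => by ring
  simp only [h]
  rw [avg_sum]
  refine sum_congr rfl fun i _ => ?_
  rw [avg_sum]
  simp only [avg_smul, avg_sg_mul_sg]
  simp [pow_two]

/-- Bessel's inequality for the first Walsh coefficients -/
theorem bessel (D : (Fin k → Bool) → ℝ) :
    ∑ i, avg (fun ε => sg (ε i) * D ε) ^ 2 ≤ avg (fun ε => D ε ^ 2) := by
  set a : Fin k → ℝ := fun i => avg (fun ε => sg (ε i) * D ε) with ha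
  have h1 : avg (fun ε => (∑ i, sg (ε i) * a i) * D ε) = ∑ i, a i ^ 2 := by
    have e : ∀ ε : Fin k → Bool, (∑ i, sg (ε i) * a i) * D ε = ∑ i, a i * (sg (ε i) * D ε) := by
      intro ε
      rw [sum_mul]
      exact sum_congr rfl fun i _ => by ring
    simp only [e]
    rw [avg_sum]
    refine sum_congr rfl fun i _ => ?_
    rw [avg_smul, pow_two]
  have h2 := avg_sq a
  have h3 : 0 ≤ avg (fun ε => (D ε - ∑ i, sg (ε i) * a i) ^ 2) := avg_nonneg fun ε => sq_nonneg _
  have h4 : avg (fun ε => (D ε - ∑ i, sg (ε i) * a i) ^ 2) =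
      avg (fun ε => D ε ^ 2) - 2 * avg (fun ε => (∑ i, sg (ε i) * a i) * D ε) +
        avg (fun ε => (∑ i, sg (ε i) * a i) ^ 2) := by
    rw [← avg_smul, ← avg_sub, ← avg_add]
    congr 1; ext ε; ring
  rw [h4, h1, h2] at h3
  linarith

end LipRad
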