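import Pool.Agent.Lib.MP_3ede0b_an.Defs
import Pool.Agent.Lib.MP_3ede0b_an.Rad

/-! The lifting lemma and the inequality of Grothendieck type for the Lipschitz-free space of a
metric space in which Lipschitz conditions can be checked on few pairs for every point. -/

namespace LipRad

open Finset LipFree

variable {M : Type*} [PseudoMetricSpace M] {k : ℕ}

/-- Lipschitz conditions at `x` and `y` can be checked on the pairs `P x`, `P y`, up to the
factor `B` -/
def Checks (P : M → Finset (M × M)) (B : ℝ) : Prop :=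
  ∀ (h : M → ℝ) (l : ℝ), 0 ≤ l → ∀ x y,
    (∀ p ∈ P x, |h p.1 - h p.2| ≤ l * dist p.1 p.2) →
    (∀ p ∈ P y, |h p.1 - h p.2| ≤ l * dist p.1 p.2) → |h x - h y| ≤ B * l * dist x y

/-- `k` functions forming a `1`-Lipschitz map into `l_2^k` -/
def Lip2 (g : Fin k → M → ℝ) : Prop := ∀ x y, ∑ i, (g i x - g i y) ^ 2 ≤ dist x y ^ 2

theorem avg_sg_sum (i : Fin k) (a : Fin k → ℝ) :
    avg (fun ε => sg (ε i) * ∑ j, sg (ε j) * a j) = a i := by
  have h : ∀ ε : Fin k → Bool, sg (ε i) * ∑ j, sg (ε j) * a j =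
      ∑ j, a j * (sg (ε i) * sg (ε j)) := by
    intro ε
    rw [mul_sum]
    exact sum_congr rfl fun j _ => by ring
  simp only [h]
  rw [avg_sum]
  simp only [avg_smul, avg_sg_mul_sg]
  simp

/-- numerical choice of the threshold -/
theorem numerics {D : ℝ} (hD : 2 ≤ D) :
    0 ≤ 4 * D * Real.exp (-((Real.sqrt (60 * Real.log D)) ^ 2 / 2)) ∧
    10 * Real.sqrt (4 * D * Real.exp (-((Real.sqrt (60 * Real.log D)) ^ 2 / 2))) ≤ 1 / 8 ∧
    2 * (10 * Real.sqrt (60 * Real.log D)) ^ 2 *
      (4 * D * Real.exp (-((Real.sqrt (60 * Real.log D)) ^ 2 / 2))) ≤ 1 / 8 := by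
  have hD0 : 0 < D := by linarith
  have hlog : 0 ≤ Real.log D := Real.log_nonneg (by linarith)
  have hlog2 : Real.log D ≤ D := (Real.log_le_sub_one_of_pos hD0).trans (by linarith)
  have h1 : (Real.sqrt (60 * Real.log D)) ^ 2 = 60 * Real.log D := Real.sq_sqrt (by positivity)
  have h2 : Real.exp (-((Real.sqrt (60 * Real.log D)) ^ 2 / 2)) = (D ^ 30)⁻¹ := by
    rw [h1, Real.exp_neg]
    congr 1
    have : 60 * Real.log D / 2 = (30 : ℕ) * Real.log D := by push_cast; ring
    rw [this, Real.exp_nat_mul, Real.exp_log hD0]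
  rw [h2]
  have h3 : 4 * D * (D ^ 30)⁻¹ = 4 * (D ^ 29)⁻¹ := by
    field_simp
  have h4 : (2 : ℝ) ^ 29 ≤ D ^ 29 := by gcongr
  have h5 : (2 : ℝ) ^ 28 ≤ D ^ 28 := by gcongr
  have h6 : 4 * D * (D ^ 30)⁻¹ ≤ 1 / 6400 := by
    rw [h3]
    have : (D ^ 29)⁻¹ ≤ ((2 : ℝ) ^ 29)⁻¹ := inv_anti₀ (by norm_num) h4
    calc _ ≤ 4 * ((2 : ℝ) ^ 29)⁻¹ := by linarith
      _ ≤ _ := by norm_num
  refine ⟨by positivity, ?_, ?_⟩
  · have : Real.sqrt (4 * D * (D ^ 30)⁻¹) ≤ 1 / 80 := by
      rw [Real.sqrt_le_left (by norm_num)]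
      exact h6.trans (by norm_num)
    linarith
  · rw [mul_pow, h1]
    have h7 : D * (4 * D * (D ^ 30)⁻¹) = 4 * (D ^ 28)⁻¹ := by
      field_simp
    have h8 : Real.log D * (4 * D * (D ^ 30)⁻¹) ≤ 4 * (D ^ 28)⁻¹ := by
      rw [← h7]
      exact mul_le_mul_of_nonneg_right hlog2 (by positivity)
    have h9 : (D ^ 28)⁻¹ ≤ ((2 : ℝ) ^ 28)⁻¹ := inv_anti₀ (by norm_num) h5
    calc 2 * (10 ^ 2 * (60 * Real.log D)) * (4 * D * (D ^ 30)⁻¹)
        = 12000 * (Real.log D * (4 * D * (D ^ 30)⁻¹)) := by ring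
      _ ≤ 12000 * (4 * ((2 : ℝ) ^ 28)⁻¹) := by
          have := h8.trans (mul_le_mul_of_nonneg_left h9 (by norm_num : (0 : ℝ) ≤ 4))
          linarith
      _ ≤ _ := by norm_num

/-- the lifting lemma -/
theorem exists_lift (P : M → Finset (M × M)) (hch : Checks P 10) (D : ℝ) (hD : 2 ≤ D)
    (hP : ∀ x, ((P x).card : ℝ) ≤ D) (g : Fin k → M → ℝ) (hg : Lip2 g) :
    ∃ f : (Fin k → Bool) → M → ℝ,
      (∀ ε x y, |f ε x - f ε y| ≤ 10 * Real.sqrt (60 * Real.log D) * dist x y) ∧
      ∀ x y, ∑ i, ((g i x - avg (fun ε => sg (ε i) * f ε x)) -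
        (g i y - avg (fun ε => sg (ε i) * f ε y))) ^ 2 ≤ (dist x y / 2) ^ 2 := by
  classical
  set l : ℝ := Real.sqrt (60 * Real.log D) with hl
  have hl0 : 0 ≤ l := Real.sqrt_nonneg _
  obtain ⟨hp0, hn1, hn2⟩ := numerics hD
  rw [← hl] at hp0 hn1 hn2
  set p : ℝ := 4 * D * Real.exp (-(l ^ 2 / 2)) with hp
  -- the signed sums
  let h : (Fin k → Bool) → M → ℝ := fun ε x => ∑ i, sg (ε i) * g i x
  have hsub : ∀ ε x y, h ε x - h ε y = ∑ i, sg (ε i) * (g i x - g i y) := by
    intro ε x y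
    simp only [h]
    rw [← sum_sub_distrib]
    exact sum_congr rfl fun i _ => by ring
  have hzero : ∀ x y, dist x y = 0 → ∀ ε, h ε x - h ε y = 0 := by
    intro x y hxy ε
    rw [hsub]
    have h1 := hg x y
    rw [hxy, zero_pow two_ne_zero] at h1
    refine sum_eq_zero fun i _ => ?_
    have h2 : (g i x - g i y) ^ 2 ≤ 0 :=
      (single_le_sum (f := fun i => (g i x - g i y) ^ 2) (fun j _ => sq_nonneg _)
        (mem_univ i)).trans h1
    have h3 : g i x - g i y = 0 := by
      have := sq_nonneg (g i x - g i y)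
      exact pow_eq_zero_iff two_ne_zero |>.mp (le_antisymm h2 this)
    rw [h3, mul_zero]
  -- bad points
  let Bad : (Fin k → Bool) → M → Prop := fun ε x =>
    ∃ q ∈ P x, l * dist q.1 q.2 < |h ε q.1 - h ε q.2|
  have hbad : ∀ x, avg (fun ε => if Bad ε x then (1 : ℝ) else 0) ≤ p / 2 := by
    intro x
    have h1 : ∀ ε, (if Bad ε x then (1 : ℝ) else 0) ≤
        ∑ q ∈ P x, (if l * dist q.1 q.2 < |∑ i, sg (ε i) * (g i q.1 - g i q.2)| then
          (1 : ℝ) else 0) := by
      intro ε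
      split_ifs with hb
      · obtain ⟨q, hq, hq2⟩ := hb
        rw [hsub] at hq2
        have := single_le_sum (f := fun q : M × M =>
          (if l * dist q.1 q.2 < |∑ i, sg (ε i) * (g i q.1 - g i q.2)| then
          (1 : ℝ) else 0)) (fun j _ => by split_ifs <;> norm_num) hq
        simp only [if_pos hq2] at this
        exact this
      · exact sum_nonneg fun j _ => by split_ifs <;> norm_num
    calc _ ≤ _ := avg_mono h1
      _ = ∑ q ∈ P x, avg (fun ε => (if l * dist q.1 q.2 <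
            |∑ i, sg (ε i) * (g i q.1 - g i q.2)| then (1 : ℝ) else 0)) := avg_sum _ _
      _ ≤ ∑ _q ∈ P x, 2 * Real.exp (-(l ^ 2 / 2)) := by
          refine sum_le_sum fun q _ => ?_
          rcases eq_or_lt_of_le (dist_nonneg (x := q.1) (y := q.2)) with hd | hd
          · have : ∀ ε : Fin k → Bool, (if l * dist q.1 q.2 <
                |∑ i, sg (ε i) * (g i q.1 - g i q.2)| then (1 : ℝ) else 0) = 0 := by
              intro ε
              rw [← hsub, hzero q.1 q.2 hd.symm ε, ← hd]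
              simp
            simp only [this]
            rw [avg_const]
            positivity
          · have := avg_tail (fun i => g i q.1 - g i q.2) (v := dist q.1 q.2 ^ 2)
              (s := l * dist q.1 q.2) (by positivity) (by positivity) (hg q.1 q.2)
            refine this.trans (le_of_eq ?_)
            congr 3
            field_simp
      _ = ((P x).card : ℝ) * (2 * Real.exp (-(l ^ 2 / 2))) := by
          rw [sum_const, nsmul_eq_mul]
      _ ≤ D * (2 * Real.exp (-(l ^ 2 / 2))) :=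
          mul_le_mul_of_nonneg_right (hP x) (by positivity)
      _ = p / 2 := by rw [hp]; ring
  -- extension from the good points
  have hext : ∀ ε, ∃ f : M → ℝ, (∀ x y, |f x - f y| ≤ 10 * l * dist x y) ∧
      ∀ x, ¬ Bad ε x → h ε x = f x := by
    intro ε
    have hL : LipschitzOnWith ⟨10 * l, by positivity⟩ (h ε) {x | ¬ Bad ε x} := by
      refine LipschitzOnWith.of_dist_le_mul fun x hx y hy => ?_
      rw [Real.dist_eq]
      refine hch (h ε) l hl0 x y (fun q hq => ?_) (fun q hq => ?_)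
      · by_contra hcon
        exact hx ⟨q, hq, not_le.mp hcon⟩
      · by_contra hcon
        exact hy ⟨q, hq, not_le.mp hcon⟩
    obtain ⟨f, hf1, hf2⟩ := hL.extend_real
    refine ⟨f, fun x y => ?_, fun x hx => hf2 hx⟩
    have := hf1.dist_le_mul x y
    rwa [Real.dist_eq] at this
  choose f hf1 hf2 using hext
  refine ⟨f, hf1, fun x y => ?_⟩
  -- the error
  set d : (Fin k → Bool) → ℝ := fun ε => (h ε x - f ε x) - (h ε y - f ε y) with hd
  have hcoef : ∀ i, ((g i x - avg (fun ε => sg (ε i) * f ε x)) -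
        (g i y - avg (fun ε => sg (ε i) * f ε y))) = avg (fun ε => sg (ε i) * d ε) := by
    intro i
    have e1 : g i x = avg (fun ε => sg (ε i) * h ε x) := (avg_sg_sum i (fun j => g j x)).symm
    have e2 : g i y = avg (fun ε => sg (ε i) * h ε y) := (avg_sg_sum i (fun j => g j y)).symm
    rw [e1, e2, ← avg_sub, ← avg_sub, ← avg_sub]
    congr 1; ext ε; simp only [hd]; ring
  simp only [hcoef]
  refine (bessel d).trans ?_
  rcases eq_or_lt_of_le (dist_nonneg (x := x) (y := y)) with hxy | hxy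
  · have hd0 : ∀ ε, d ε ^ 2 = 0 := by
      intro ε
      have h1 := hzero x y hxy.symm ε
      have h2 := hf1 ε x y
      rw [← hxy, mul_zero] at h2
      have h3 : f ε x - f ε y = 0 := abs_nonpos_iff.mp h2
      have : d ε = (h ε x - h ε y) - (f ε x - f ε y) := by simp only [hd]; ring
      rw [this, h1, h3]; norm_num
    simp only [hd0]
    rw [avg_const]
    positivity
  · let b : (Fin k → Bool) → ℝ := fun ε => if Bad ε x ∨ Bad ε y then 1 else 0
    have hb2 : ∀ ε, b ε ^ 2 = b ε := by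
      intro ε; simp only [b]; split_ifs <;> norm_num
    have hbp : avg b ≤ p := by
      have h1 : ∀ ε, b ε ≤ (if Bad ε x then (1 : ℝ) else 0) + (if Bad ε y then (1 : ℝ) else 0) := by
        intro ε
        simp only [b]
        by_cases h1 : Bad ε x <;> by_cases h2 : Bad ε y <;> simp [h1, h2]
      calc _ ≤ _ := avg_mono h1
        _ ≤ p := by rw [avg_add]; linarith [hbad x, hbad y]
    have hpt : ∀ ε, d ε ^ 2 ≤ 2 * (b ε * (h ε x - h ε y) ^ 2) +
        2 * (10 * l * dist x y) ^ 2 * b ε := by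
      intro ε
      by_cases hb : Bad ε x ∨ Bad ε y
      · have hb1 : b ε = 1 := if_pos hb
        have e : d ε = (h ε x - h ε y) - (f ε x - f ε y) := by simp only [hd]; ring
        have h2 : (f ε x - f ε y) ^ 2 ≤ (10 * l * dist x y) ^ 2 :=
          sq_le_sq' (by linarith [(abs_le.mp (hf1 ε x y)).1]) (abs_le.mp (hf1 ε x y)).2
        rw [hb1, e]
        nlinarith [sq_nonneg ((h ε x - h ε y) + (f ε x - f ε y))]
      · have hb1 : b ε = 0 := if_neg hb
        rw [not_or] at hb
        have e : d ε = 0 := by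
          simp only [hd]
          rw [hf2 ε x hb.1, hf2 ε y hb.2]; ring
        rw [hb1, e]; norm_num
    have h4 : avg (fun ε => b ε * (h ε x - h ε y) ^ 2) ≤ Real.sqrt p * (5 * dist x y ^ 2) := by
      refine (avg_mul_le b (fun ε => (h ε x - h ε y) ^ 2)).trans ?_
      have h5 : avg (fun ε => b ε ^ 2) ≤ p := by simp only [hb2]; exact hbp
      have h6 : avg (fun ε => ((h ε x - h ε y) ^ 2) ^ 2) ≤ (5 * dist x y ^ 2) ^ 2 := by
        have e : ∀ ε, ((h ε x - h ε y) ^ 2) ^ 2 = (∑ i, sg (ε i) * (g i x - g i y)) ^ 4 := by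
          intro ε; rw [hsub]; ring
        simp only [e]
        refine (avg_fourth (fun i => g i x - g i y) (v := dist x y ^ 2) (by positivity)
          (hg x y)).trans (le_of_eq (by ring))
      have h7 : Real.sqrt (avg (fun ε => ((h ε x - h ε y) ^ 2) ^ 2)) ≤ 5 * dist x y ^ 2 := by
        rw [Real.sqrt_le_left (by positivity)]
        exact h6
      exact mul_le_mul (Real.sqrt_le_sqrt h5) h7 (Real.sqrt_nonneg _) (Real.sqrt_nonneg _)
    calc avg (fun ε => d ε ^ 2) ≤ _ := avg_mono hpt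
      _ = 2 * avg (fun ε => b ε * (h ε x - h ε y) ^ 2) + 2 * (10 * l * dist x y) ^ 2 * avg b := by
          rw [avg_add, avg_smul, avg_smul]
      _ ≤ 2 * (Real.sqrt p * (5 * dist x y ^ 2)) + 2 * (10 * l * dist x y) ^ 2 * p := by
          have := mul_le_mul_of_nonneg_left hbp
            (by positivity : 0 ≤ 2 * (10 * l * dist x y) ^ 2)
          linarith
      _ = dist x y ^ 2 * (10 * Real.sqrt p + 2 * (10 * l) ^ 2 * p) := by ring
      _ ≤ dist x y ^ 2 * (1 / 4) := by
          apply mul_le_mul_of_nonneg_left _ (by positivity)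
          linarith
      _ = (dist x y / 2) ^ 2 := by ring

end LipRad
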