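import Pool.Agent.Lib.MP_3ede0b_an.Defs
import Pool.Agent.Lib.MP_3ede0b_an.Cube

/-! Molecules in the free space, and the main estimates. -/

namespace LipFree

section mol
variable {M : Type*} [PseudoMetricSpace M] {e : M}

theorem delta_mem (e x : M) : delta e x ∈ FreeSpace M e :=
  Submodule.le_topologicalClosure _ (Submodule.subset_span ⟨x, rfl⟩)

/-- a finitely supported element of the free space -/
noncomputable def mol {V : Type*} [Fintype V] (e : M) (P : V → M) (a : V → ℝ) : FreeSpace M e :=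
  ∑ v, a v • (⟨delta e (P v), delta_mem e (P v)⟩ : FreeSpace M e)

theorem mol_apply {V : Type*} [Fintype V] (P : V → M) (a : V → ℝ) (f : Lip0 M e) :
    ((mol e P a : FreeSpace M e) : Lip0 M e →L[ℝ] ℝ) f = ∑ v, a v * f (P v) := by
  unfold mol
  rw [Submodule.coe_sum, sum_apply]
  refine Finset.sum_congr rfl (fun v _ => ?_)
  rfl

theorem sum_smul_mol {V : Type*} [Fintype V] {k : ℕ} (P : V → M) (a : Fin k → V → ℝ)
    (b : Fin k → ℝ) :
    ∑ i, b i • (mol e P (a i) : FreeSpace M e) = mol e P (fun v => ∑ i, b i * a i v) := by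
  unfold mol
  simp only [Finset.smul_sum, smul_smul, Finset.sum_smul]
  rw [Finset.sum_comm]

theorem norm_mol_le {V : Type*} [Fintype V] (P : V → M) (a : V → ℝ) (B : ℝ) (hB : 0 ≤ B)
    (h : ∀ f : M → ℝ, (∀ x y, |f x - f y| ≤ dist x y) → |∑ v, a v * f (P v)| ≤ B) :
    ‖(mol e P a : FreeSpace M e)‖ ≤ B := by
  rw [Submodule.coe_norm]
  refine ContinuousLinearMap.opNorm_le_bound _ hB (fun f => ?_)
  rw [mol_apply, Real.norm_eq_abs]
  rcases eq_or_lt_of_le (norm_nonneg f) with h0 | h0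
  · have : f = 0 := norm_eq_zero.mp h0.symm
    subst this
    simp [Lip0.zero_apply]
  · have h1 := h (fun x => ‖f‖⁻¹ * f x) (fun x y => by
      rw [← mul_sub, abs_mul, abs_of_pos (inv_pos.mpr h0), inv_mul_le_iff₀ h0]
      exact f.le_norm x y)
    have h2 : ∑ v, a v * (‖f‖⁻¹ * f (P v)) = ‖f‖⁻¹ * ∑ v, a v * f (P v) := by
      rw [Finset.mul_sum]
      exact Finset.sum_congr rfl (fun v _ => by ring)
    rw [h2, abs_mul, abs_of_pos (inv_pos.mpr h0), inv_mul_le_iff₀ h0] at h1
    linarith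

theorem le_norm_mol {V : Type*} [Fintype V] (P : V → M) (a : V → ℝ) (K : ℝ) (hK : 0 < K)
    (ha : ∑ v, a v = 0) (f : M → ℝ) (hf : ∀ x y, |f x - f y| ≤ K * dist x y) :
    |∑ v, a v * f (P v)| / K ≤ ‖(mol e P a : FreeSpace M e)‖ := by
  set f0 : Lip0 M e := ⟨fun x => f x - f e, ⟨K, fun x y => by
    rw [sub_sub_sub_cancel_right]; exact hf x y⟩, sub_self _⟩ with hf0
  have h1 : ‖f0‖ ≤ K := Lip0.norm_le _ hK.le (fun x y => by
    change |(f x - f e) - (f y - f e)| ≤ _
    rw [sub_sub_sub_cancel_right]; exact hf x y)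
  have h2 := ContinuousLinearMap.le_opNorm ((mol e P a : FreeSpace M e) : Lip0 M e →L[ℝ] ℝ) f0
  rw [mol_apply, Real.norm_eq_abs] at h2
  have h3 : ∑ v, a v * f0 (P v) = ∑ v, a v * f (P v) := by
    have : ∀ v, a v * f0 (P v) = a v * f (P v) - a v * f e := fun v => by
      change a v * (f (P v) - f e) = _
      ring
    rw [Finset.sum_congr rfl (fun v _ => this v), Finset.sum_sub_distrib, ← Finset.sum_mul, ha]
    ring
  rw [h3] at h2
  rw [div_le_iff₀ hK, Submodule.coe_norm]
  exact le_trans h2 (mul_le_mul_of_nonneg_left h1 (norm_nonneg _))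

/-- extension of Lipschitz functions from a finite family of points -/
theorem exists_extension {V : Type*} [Fintype V] [Nonempty V] (P : V → M) (f0 : V → ℝ) (K : ℝ)
    (hK : 0 ≤ K) (h : ∀ v w, |f0 v - f0 w| ≤ K * dist (P v) (P w)) :
    ∃ f : M → ℝ, (∀ x y, |f x - f y| ≤ K * dist x y) ∧ ∀ v, f (P v) = f0 v := by
  have hne : (Finset.univ : Finset V).Nonempty := Finset.univ_nonempty
  refine ⟨fun x => Finset.univ.inf' hne (fun v => f0 v + K * dist x (P v)), ?_, ?_⟩
  · have key : ∀ x y, Finset.univ.inf' hne (fun v => f0 v + K * dist x (P v)) ≤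
        Finset.univ.inf' hne (fun v => f0 v + K * dist y (P v)) + K * dist x y := by
      intro x y
      obtain ⟨u, -, hu⟩ := Finset.exists_mem_eq_inf' hne (fun v => f0 v + K * dist y (P v))
      rw [hu]
      refine le_trans (Finset.inf'_le _ (Finset.mem_univ u)) ?_
      have h1 := mul_le_mul_of_nonneg_left (dist_triangle x y (P u)) hK
      linarith
    intro x y
    have h1 := key x y
    have h2 := key y x
    rw [dist_comm y x] at h2
    rw [abs_le]
    constructor <;> linarith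
  · intro v
    apply le_antisymm
    · refine le_trans (Finset.inf'_le _ (Finset.mem_univ v)) ?_
      rw [dist_self]; simp
    · refine Finset.le_inf' _ _ (fun w _ => ?_)
      have := (abs_le.mp (h v w)).2
      linarith

end mol

/-- the conclusion -/
theorem main_estimate {M : Type*} [PseudoMetricSpace M] (e : M) (p : ℝ) (hp : 1 < p)
    (hM : ContainsEllP p M) :
    SmallSignedSums ((1 - 1 / p) / 2) (FreeSpace M e) := by
  obtain ⟨L, hL⟩ := hM
  refine ⟨1 / 4, 4 * |L|, by norm_num, fun k => ?_⟩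
  rcases Nat.eq_zero_or_pos k with rfl | hk
  · refine ⟨fun i => 0, fun i => i.elim0, fun ε => ?_⟩
    rw [Finset.univ_eq_empty, Finset.sum_empty]
    have h0 : ‖(0 : FreeSpace M e)‖ = 0 := by
      rw [Submodule.coe_norm, Submodule.coe_zero, norm_zero]
    rw [h0]
    positivity
  have hp0 : 0 < p := by linarith
  set α : ℝ := 1 / p with hα
  have hα0 : 0 ≤ α := by rw [hα]; positivity
  have hα1 : α ≤ 1 := by rw [hα, div_le_one hp0]; exact hp.le
  set n : ℕ := k ^ 2 with hn
  have : NeZero n := ⟨by rw [hn]; positivity⟩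
  have hn0 : (0 : ℝ) < n := by exact_mod_cast (npos (n := n))
  -- the embedding of the group
  set E := Fintype.equivFin ((Fin k → SignType) × ZMod (4 * n)) with hE
  obtain ⟨T, hT⟩ := hL (Fintype.card ((Fin k → SignType) × ZMod (4 * n)))
  set io : Gp n k → (Fin (Fintype.card ((Fin k → SignType) × ZMod (4 * n))) → ℝ) :=
    fun v c => ind ((E.symm c).2 + v (E.symm c).1) with hio
  have hsum : ∀ v w : Gp n k, ∑ c, |io v c - io w c| ^ p = 2 * len (v - w) := by
    intro v w
    have e1 : ∀ c, |io v c - io w c| ^ p = |io v c - io w c| := by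
      intro c
      simp only [hio, ind]
      split_ifs <;> simp [hp0.ne']
    rw [Finset.sum_congr rfl (fun c _ => e1 c)]
    have e2 : ∑ c, |io v c - io w c| =
        ∑ c : (Fin k → SignType) × ZMod (4 * n), |ind (c.2 + v c.1) - ind (c.2 + w c.1)| :=
      Equiv.sum_comp E.symm (fun c => |ind (c.2 + v c.1) - ind (c.2 + w c.1)|)
    rw [e2, Fintype.sum_prod_type]
    simp only
    rw [Finset.sum_congr rfl (fun s _ => sum_abs_ind (v s) (w s)), ← Finset.mul_sum]
    unfold len
    push_cast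
    rfl
  have hd1 : ∀ v w : Gp n k, (2 * len (v - w) : ℝ) ^ α ≤ dist (T (io v)) (T (io w)) := by
    intro v w
    have := (hT (io v) (io w)).1
    rwa [hsum] at this
  have hd2 : ∀ v w : Gp n k, dist (T (io v)) (T (io w)) ≤ |L| * (2 * len (v - w) : ℝ) ^ α := by
    intro v w
    have := (hT (io v) (io w)).2
    rw [hsum] at this
    refine le_trans this (mul_le_mul_of_nonneg_right (le_abs_self L) ?_)
    positivity
  set P : Gp n k → M := fun v => T (io v) with hP
  set K : ℝ := (Fintype.card (Gp n k) : ℝ) with hK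
  have hK0 : 0 < K := by rw [hK]; exact_mod_cast Fintype.card_pos
  set m : ℝ := (4 * n : ℝ) ^ α with hm
  have hm0 : 0 < m := by rw [hm]; positivity
  refine ⟨fun i => mol e P (fun v => (K * m)⁻¹ * sg (hom i v)), fun i => ?_, fun ε => ?_⟩
  · -- lower bound
    set K1 : ℝ := (2 * n : ℝ) ^ (1 - α) * (2 : ℝ) ^ (-α) with hK1
    have hK10 : 0 < K1 := by rw [hK1]; positivity
    obtain ⟨f, hf1, hf2⟩ := exists_extension P (fun v => tent (hom i v)) K1 hK10.le (by
      intro v w
      refine le_trans ?_ (mul_le_mul_of_nonneg_left (hd1 v w) hK10.le)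
      have a1 := tent_lip i v w
      have a2 := tent_osc i v w
      set t := |tent (hom i v) - tent (hom i w)| with ht
      have ht0 : 0 ≤ t := abs_nonneg _
      have a3 : (2 * len (v - w) : ℝ) ^ α = 2 ^ α * (len (v - w) : ℝ) ^ α :=
        Real.mul_rpow (by norm_num) (Nat.cast_nonneg _)
      have a4 : K1 * (2 * len (v - w) : ℝ) ^ α = (2 * n : ℝ) ^ (1 - α) * (len (v - w) : ℝ) ^ α := by
        rw [a3, hK1]
        have : (2 : ℝ) ^ (-α) * 2 ^ α = 1 := by
          rw [← Real.rpow_add (by norm_num)]; simp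
        calc _ = (2 * n : ℝ) ^ (1 - α) * ((2 : ℝ) ^ (-α) * 2 ^ α) * (len (v - w) : ℝ) ^ α := by ring
          _ = _ := by rw [this]; ring
      rw [a4]
      rcases eq_or_lt_of_le ht0 with h0 | h0
      · rw [← h0]; positivity
      · calc t = t ^ (1 - α) * t ^ α := by
              rw [← Real.rpow_add h0]; simp
          _ ≤ (2 * n : ℝ) ^ (1 - α) * (len (v - w) : ℝ) ^ α :=
              mul_le_mul (Real.rpow_le_rpow ht0 a2 (by linarith)) (Real.rpow_le_rpow ht0 a1 hα0)
                (by positivity) (by positivity))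
    have hz : ∑ v : Gp n k, (K * m)⁻¹ * sg (hom i v) = 0 := by
      rw [← Finset.mul_sum, sum_wave, mul_zero]
    have h1 := le_norm_mol (e := e) P _ K1 hK10 hz f hf1
    have h2 : ∑ v : Gp n k, (K * m)⁻¹ * sg (hom i v) * f (P v) = (K * m)⁻¹ * (K * (n / 2)) := by
      rw [hK, ← tent_sum i, Finset.mul_sum]
      refine Finset.sum_congr rfl (fun v _ => ?_)
      rw [hf2 v]; ring
    rw [h2] at h1
    refine le_trans (le_of_eq ?_) h1
    rw [abs_of_pos (by positivity)]
    have e1 : (2 * n : ℝ) ^ (1 - α) = (2 * n) / (2 * n : ℝ) ^ α := by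
      rw [Real.rpow_sub (by positivity), Real.rpow_one]
    have e2 : m = 2 ^ α * (2 * n : ℝ) ^ α := by
      rw [hm, ← Real.mul_rpow (by norm_num) (by positivity)]
      congr 1; ring
    have e3 : (2 : ℝ) ^ (-α) = (2 ^ α)⁻¹ := Real.rpow_neg (by norm_num) α
    rw [hK1, e1, e2, e3]
    have b1 : (0 : ℝ) < 2 ^ α := by positivity
    have b2 : (0 : ℝ) < (2 * n : ℝ) ^ α := by positivity
    field_simp
    norm_num
  · -- upper bound
    rw [sum_smul_mol P (fun i v => (K * m)⁻¹ * sg (hom i v)) (fun i => if ε i then (1 : ℝ) else -1)]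
    refine norm_mol_le P _ _ (by positivity) (fun f hf => ?_)
    have h1 := holder_sum_signs hk (le_refl (k ^ 2)) α |L| hα0 hα1 (abs_nonneg L)
      (fun v => f (P v)) (by
        intro v u
        have a1 := (abs_le.mp (hf (P v) (P (v + u)))).2
        have a2 := hd2 v (v + u)
        rw [show v - (v + u) = -u by abel, len_neg] at a2
        change dist (P v) (P (v + u)) ≤ _ at a2
        linarith) ε
    have h2 : ∑ v, (∑ i, (if ε i then (1 : ℝ) else -1) * ((K * m)⁻¹ * sg (hom i v))) * f (P v) =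
        (K * m)⁻¹ * ∑ v, f (P v) * ∑ i, (if ε i then (1 : ℝ) else -1) * sg (hom i v) := by
      rw [Finset.mul_sum]
      refine Finset.sum_congr rfl (fun v _ => ?_)
      rw [Finset.sum_mul, Finset.mul_sum, Finset.mul_sum]
      refine Finset.sum_congr rfl (fun i _ => ?_)
      ring
    rw [h2, abs_mul, abs_of_pos (by positivity)]
    have e2 : m = 2 ^ α * (2 * n : ℝ) ^ α := by
      rw [hm, ← Real.mul_rpow (by norm_num) (by positivity)]
      congr 1; ring
    have e4 : (Real.sqrt k) ^ (1 - α) = (k : ℝ) ^ ((1 - α) / 2) := by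
      rw [Real.sqrt_eq_rpow, ← Real.rpow_mul (Nat.cast_nonneg _)]
      congr 1; ring
    have b1 : (1 : ℝ) ≤ 2 ^ α := Real.one_le_rpow (by norm_num) hα0
    have b2 : (0 : ℝ) < (2 * n : ℝ) ^ α := by positivity
    rw [inv_mul_le_iff₀ (by positivity)]
    refine le_trans h1 ?_
    rw [← hK, e4, e2]
    have b3 : 0 ≤ K * (4 * |L| * (2 * n : ℝ) ^ α * (k : ℝ) ^ ((1 - α) / 2)) := by positivity
    calc K * (4 * |L| * (2 * n : ℝ) ^ α * (k : ℝ) ^ ((1 - α) / 2))
        ≤ 2 ^ α * (K * (4 * |L| * (2 * n : ℝ) ^ α * (k : ℝ) ^ ((1 - α) / 2))) := by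
          nlinarith
      _ = K * (2 ^ α * (2 * n : ℝ) ^ α) * (4 * |L| * (k : ℝ) ^ ((1 - α) / 2)) := by ring

/-- the estimate excludes cotype -/
theorem not_cotype {E : Type*} [NormedAddCommGroup E] [NormedSpace ℝ E] (p : ℝ) (hp : 1 < p)
    (h : SmallSignedSums ((1 - 1 / p) / 2) E) (q : ℝ) (hq : 0 < q) (hqp : q < 2 * p / (p - 1)) :
    ¬ HasCotype q E := by
  rintro ⟨D, hD⟩
  obtain ⟨c, C, hc, hx⟩ := h
  have hp1 : 0 < p - 1 := by linarith
  have hp0 : 0 < p := by linarith
  set s : ℝ := (1 - 1 / p) / 2 with hs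
  have hsq : s < 1 / q := by
    rw [hs, lt_div_iff₀ hq]
    rw [lt_div_iff₀ hp1] at hqp
    have : (1 - 1 / p) / 2 * q = q * (p - 1) / (2 * p) := by field_simp
    rw [this, div_lt_one (by positivity)]
    exact hqp
  -- for all k ≥ 1 : c k^{1/q} ≤ D C k^s
  have key : ∀ k : ℕ, c * (k : ℝ) ^ (1 / q) ≤ |D| * |C| * (k : ℝ) ^ s := by
    intro k
    obtain ⟨x, hx1, hx2⟩ := hx k
    have h1 := hD k x
    have h2 : c * (k : ℝ) ^ (1 / q) ≤ (∑ i, ‖x i‖ ^ q) ^ (1 / q) := by
      have a1 : (k : ℝ) * c ^ q ≤ ∑ i, ‖x i‖ ^ q := by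
        have : ∑ i : Fin k, c ^ q ≤ ∑ i, ‖x i‖ ^ q :=
          Finset.sum_le_sum (fun i _ => Real.rpow_le_rpow hc.le (hx1 i) hq.le)
        rwa [Finset.sum_const, Finset.card_univ, Fintype.card_fin, nsmul_eq_mul] at this
      have a2 := Real.rpow_le_rpow (by positivity) a1 (by positivity : 0 ≤ 1 / q)
      rw [Real.mul_rpow (Nat.cast_nonneg _) (by positivity), ← Real.rpow_mul hc.le,
        mul_one_div_cancel hq.ne', Real.rpow_one] at a2
      linarith
    have h3 : Real.sqrt ((∑ ε : Fin k → Bool, ‖∑ i, (if ε i then (1 : ℝ) else -1) • x i‖ ^ 2) / 2 ^ k)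
        ≤ |C| * (k : ℝ) ^ s := by
      rw [Real.sqrt_le_left (by positivity), div_le_iff₀ (by positivity)]
      have a1 : ∑ ε : Fin k → Bool, ‖∑ i, (if ε i then (1 : ℝ) else -1) • x i‖ ^ 2 ≤
          ∑ ε : Fin k → Bool, (|C| * (k : ℝ) ^ s) ^ 2 := by
        refine Finset.sum_le_sum (fun ε _ => ?_)
        refine pow_le_pow_left₀ (norm_nonneg _) ?_ 2
        refine le_trans (hx2 ε) ?_
        exact mul_le_mul_of_nonneg_right (le_abs_self C) (by positivity)
      rw [Finset.sum_const, Finset.card_univ, Fintype.card_fun, Fintype.card_bool,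
        Fintype.card_fin, nsmul_eq_mul] at a1
      push_cast at a1
      linarith
    calc c * (k : ℝ) ^ (1 / q) ≤ _ := h2
      _ ≤ _ := h1
      _ ≤ |D| * Real.sqrt ((∑ ε : Fin k → Bool, ‖∑ i, (if ε i then (1 : ℝ) else -1) • x i‖ ^ 2) / 2 ^ k) :=
          mul_le_mul_of_nonneg_right (le_abs_self D) (Real.sqrt_nonneg _)
      _ ≤ |D| * (|C| * (k : ℝ) ^ s) := mul_le_mul_of_nonneg_left h3 (abs_nonneg D)
      _ = |D| * |C| * (k : ℝ) ^ s := by ring
  have hlim : Filter.Tendsto (fun k : ℕ => (k : ℝ) ^ (1 / q - s)) Filter.atTop Filter.atTop :=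
    (tendsto_rpow_atTop (by linarith)).comp tendsto_natCast_atTop_atTop
  obtain ⟨k, hk1, hk2⟩ := ((hlim.eventually_gt_atTop (|D| * |C| / c)).and
    (Filter.eventually_ge_atTop 1)).exists
  have hk0 : (0 : ℝ) < k := by exact_mod_cast hk2
  have h4 := key k
  rw [div_lt_iff₀ hc] at hk1
  have h5 : (k : ℝ) ^ (1 / q) = (k : ℝ) ^ (1 / q - s) * (k : ℝ) ^ s := by
    rw [← Real.rpow_add hk0]; congr 1; ring
  have h6 : 0 < (k : ℝ) ^ s := by positivity
  rw [h5] at h4
  have h7 := mul_lt_mul_of_pos_right hk1 h6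
  linarith

theorem main_free {M : Type*} [PseudoMetricSpace M] (e : M) (p : ℝ) (hp : 1 < p)
    (hM : ContainsEllP p M) :
    SmallSignedSums ((1 - 1 / p) / 2) (Free M e) := by
  have h := main_estimate e p hp hM
  exact h

/-- `l_p` contains the spaces `l_p^N` -/
theorem contains_lp (p : ENNReal) [Fact (1 ≤ p)] (hp : p ≠ ⊤) :
    ContainsEllP p.toReal (lp (fun _ : ℕ => ℝ) p) := by
  have hp1 : (1 : ENNReal) ≤ p := Fact.out
  have hp0 : 0 < p.toReal := ENNReal.toReal_pos (by rintro rfl; simp at hp1) hp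
  refine ⟨1, fun N => ⟨fun x => ∑ i : Fin N, lp.single p (i : ℕ) (x i), fun x y => ?_⟩⟩
  have key : dist (∑ i : Fin N, (lp.single p (i : ℕ) (x i) : lp (fun _ : ℕ => ℝ) p))
      (∑ i : Fin N, lp.single p (i : ℕ) (y i)) = (∑ i, |x i - y i| ^ p.toReal) ^ (1 / p.toReal) := by
    rw [dist_eq_norm, ← Finset.sum_sub_distrib]
    have e1 : ∑ i : Fin N, ((lp.single p (i : ℕ) (x i) : lp (fun _ : ℕ => ℝ) p) -
        lp.single p (i : ℕ) (y i)) =
        ∑ j ∈ Finset.range N, lp.single p j ((fun j : ℕ => if h : j < N then x ⟨j, h⟩ - y ⟨j, h⟩ else 0) j) := by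
      rw [Finset.sum_range]
      refine Finset.sum_congr rfl (fun i _ => ?_)
      have h7 : (fun j : ℕ => if h : j < N then x ⟨j, h⟩ - y ⟨j, h⟩ else 0) (i : ℕ) = x i - y i :=
        dif_pos i.2
      rw [h7, lp.single_sub]
    rw [e1]
    have e2 := lp.norm_sum_single hp0 (fun j : ℕ => if h : j < N then x ⟨j, h⟩ - y ⟨j, h⟩ else 0)
      (Finset.range N)
    have e3 : ∑ j ∈ Finset.range N, ‖(if h : j < N then x ⟨j, h⟩ - y ⟨j, h⟩ else 0 : ℝ)‖ ^ p.toReal =
        ∑ i : Fin N, |x i - y i| ^ p.toReal := by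
      rw [Finset.sum_range]
      refine Finset.sum_congr rfl (fun i _ => ?_)
      rw [dif_pos i.2, Real.norm_eq_abs]
    rw [e3] at e2
    rw [← e2, ← Real.rpow_mul (norm_nonneg _), mul_one_div_cancel hp0.ne', Real.rpow_one]
  rw [key, one_mul]
  exact ⟨le_rfl, le_rfl⟩

theorem contains_EllP (p : ENNReal) [Fact (1 ≤ p)] (hp : p ≠ ⊤) :
    ContainsEllP p.toReal (EllP p) := contains_lp p hp

end LipFree
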