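import Pool.Agent.Lib.MP_3ede0b_an.Dual

/-! Metric spaces with few scales and small balls: Lipschitz conditions can be checked on few
pairs. -/

namespace LipRad

open Finset LipFree

/-- every `r`-separated finite subset of a ball of radius `4 r` has at most `K` points -/
def Packing (M : Type*) [PseudoMetricSpace M] (K : ℕ) : Prop :=
  ∀ (r : ℝ), 0 < r → ∀ (x : M) (S : Finset M), (∀ z ∈ S, dist z x ≤ 4 * r) →
    (∀ z ∈ S, ∀ w ∈ S, z ≠ w → r ≤ dist z w) → S.card ≤ K

theorem exists_net (M : Type*) [PseudoMetricSpace M] [Finite M] (r : ℝ) (hr : 0 < r) :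
    ∃ N : Finset M, (∀ z ∈ N, ∀ w ∈ N, z ≠ w → r ≤ dist z w) ∧ ∀ x, ∃ z ∈ N, dist x z < r := by
  classical
  have := Fintype.ofFinite M
  let F : Finset (Finset M) := (Finset.univ : Finset M).powerset.filter
    (fun N => ∀ z ∈ N, ∀ w ∈ N, z ≠ w → r ≤ dist z w)
  have hne : F.Nonempty := ⟨∅, by simp [F]⟩
  obtain ⟨N, hN, hmax⟩ := F.exists_max_image (fun N => N.card) hne
  have hN2 : ∀ z ∈ N, ∀ w ∈ N, z ≠ w → r ≤ dist z w := (Finset.mem_filter.mp hN).2
  refine ⟨N, hN2, fun x => ?_⟩
  by_contra hcon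
  push Not at hcon
  have hx : x ∉ N := fun hx => by
    have := hcon x hx
    rw [dist_self] at this
    linarith
  have hins : insert x N ∈ F := by
    refine Finset.mem_filter.mpr ⟨by simp, fun z hz w hw hzw => ?_⟩
    rcases Finset.mem_insert.mp hz with rfl | hz' <;> rcases Finset.mem_insert.mp hw with rfl | hw'
    · exact absurd rfl hzw
    · exact hcon w hw'
    · rw [dist_comm]; exact hcon z hz'
    · exact hN2 z hz' w hw' hzw
  have := hmax _ hins
  rw [Finset.card_insert_of_notMem hx] at this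
  omega

theorem exists_scale {a d : ℝ} (_ha : 0 < a) (J : ℕ) (h1 : a ≤ d) (h2 : d < a * 2 ^ (J + 1)) :
    ∃ s ≤ J, a * 2 ^ s ≤ d ∧ d < a * 2 ^ (s + 1) := by
  induction J with
  | zero => exact ⟨0, le_rfl, by simpa using h1, h2⟩
  | succ J ih =>
    by_cases h : d < a * 2 ^ (J + 1)
    · obtain ⟨s, hs, h3, h4⟩ := ih h
      exact ⟨s, hs.trans (Nat.le_succ J), h3, h4⟩
    · exact ⟨J + 1, le_rfl, not_lt.mp h, h2⟩

/-- the pairs of a metric space with few scales -/
theorem exists_pairs (M : Type*) [MetricSpace M] [Finite M] (K J : ℕ) (a : ℝ) (ha : 0 < a)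
    (hK : Packing M K) (hsep : ∀ x y : M, x ≠ y → a ≤ dist x y)
    (hdiam : ∀ x y : M, dist x y < a * 2 ^ (J + 1)) :
    ∃ P : M → Finset (M × M), Checks P 10 ∧ ∀ x, (P x).card ≤ (J + 1) * (K + 1) := by
  classical
  have hnet : ∀ s : ℕ, ∃ N : Finset M, (∀ z ∈ N, ∀ w ∈ N, z ≠ w → a * 2 ^ s ≤ dist z w) ∧
      ∀ x, ∃ z ∈ N, dist x z < a * 2 ^ s := fun s => exists_net M _ (by positivity)
  choose N hN1 hN2 using hnet
  choose q hq1 hq2 using hN2
  have hq0 : ∀ x, q 0 x = x := by
    intro x
    by_contra h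
    have h1 := hsep x (q 0 x) (Ne.symm h)
    have h2 := hq2 0 x
    simp only [pow_zero, mul_one] at h2
    linarith
  let P1 : M → Finset (M × M) := fun x => (range (J + 1)).image (fun s => (q s x, q (s + 1) x))
  let P2 : M → Finset (M × M) := fun x => (range (J + 1)).biUnion (fun s =>
    ((N s).filter (fun z => dist z (q s x) ≤ 4 * (a * 2 ^ s))).image (fun z => (q s x, z)))
  refine ⟨fun x => P1 x ∪ P2 x, ?_, ?_⟩
  · intro h l hl x y hx hy
    rcases eq_or_ne x y with rfl | hxy
    · simp
    obtain ⟨s, hsJ, hs1, hs2⟩ := exists_scale ha J (hsep x y hxy) (hdiam x y)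
    have htel : ∀ x : M, (∀ p ∈ P1 x ∪ P2 x, |h p.1 - h p.2| ≤ l * dist p.1 p.2) →
        ∀ t ≤ s, |h x - h (q t x)| ≤ l * (3 * (a * 2 ^ t)) := by
      intro x hx t
      induction t with
      | zero => intro _; rw [hq0]; simp; positivity
      | succ t ih =>
        intro ht
        have h1 := ih (by omega)
        have h2 : (q t x, q (t + 1) x) ∈ P1 x ∪ P2 x := by
          refine Finset.mem_union_left _ (Finset.mem_image.mpr ⟨t, ?_, rfl⟩)
          rw [Finset.mem_range]; omega
        have h3 := hx _ h2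
        simp only at h3
        have h4 : dist (q t x) (q (t + 1) x) ≤ 3 * (a * 2 ^ t) := by
          have e1 := dist_triangle_left (q t x) (q (t + 1) x) x
          have e2 := hq2 t x
          have e3 := hq2 (t + 1) x
          have e4 : a * 2 ^ (t + 1) = 2 * (a * 2 ^ t) := by ring
          rw [e4] at e3
          linarith
        have h5 : l * dist (q t x) (q (t + 1) x) ≤ l * (3 * (a * 2 ^ t)) :=
          mul_le_mul_of_nonneg_left h4 hl
        have h6 : |h x - h (q (t + 1) x)| ≤ |h x - h (q t x)| + |h (q t x) - h (q (t + 1) x)| := by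
          have := abs_add_le (h x - h (q t x)) (h (q t x) - h (q (t + 1) x))
          rwa [sub_add_sub_cancel] at this
        calc _ ≤ _ := h6
          _ ≤ l * (3 * (a * 2 ^ t)) + l * (3 * (a * 2 ^ t)) := by linarith
          _ = l * (3 * (a * 2 ^ (t + 1))) := by ring
    have hx1 := htel x hx s le_rfl
    have hy1 := htel y hy s le_rfl
    have hd : dist (q s y) (q s x) ≤ 4 * (a * 2 ^ s) := by
      have e1 := dist_triangle4 (q s y) y x (q s x)
      have e2 := hq2 s x
      have e3 := hq2 s y
      rw [dist_comm y] at e3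
      rw [dist_comm y x] at e1
      have e4 : a * 2 ^ (s + 1) = 2 * (a * 2 ^ s) := by ring
      rw [e4] at hs2
      linarith
    have hmem : (q s x, q s y) ∈ P1 x ∪ P2 x := by
      refine Finset.mem_union_right _ (Finset.mem_biUnion.mpr ⟨s, ?_, ?_⟩)
      · rw [Finset.mem_range]; omega
      · exact Finset.mem_image.mpr ⟨q s y, Finset.mem_filter.mpr ⟨hq1 s y, hd⟩, rfl⟩
    have hmid := hx _ hmem
    simp only at hmid
    rw [dist_comm] at hd
    have hmid2 : |h (q s x) - h (q s y)| ≤ l * (4 * (a * 2 ^ s)) :=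
      hmid.trans (mul_le_mul_of_nonneg_left hd hl)
    have htri : |h x - h y| ≤ |h x - h (q s x)| + |h (q s x) - h (q s y)| + |h y - h (q s y)| := by
      have e : h x - h y = (h x - h (q s x)) + (h (q s x) - h (q s y)) - (h y - h (q s y)) := by
        ring
      rw [e]
      exact (abs_sub _ _).trans (add_le_add (abs_add_le _ _) le_rfl)
    calc _ ≤ _ := htri
      _ ≤ l * (3 * (a * 2 ^ s)) + l * (4 * (a * 2 ^ s)) + l * (3 * (a * 2 ^ s)) := by linarith
      _ = 10 * l * (a * 2 ^ s) := by ring
      _ ≤ 10 * l * dist x y := mul_le_mul_of_nonneg_left hs1 (by positivity)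
  · intro x
    have h1 : (P1 x).card ≤ J + 1 := by
      refine Finset.card_image_le.trans ?_
      rw [Finset.card_range]
    have h2 : (P2 x).card ≤ (J + 1) * K := by
      have h3 := Finset.card_biUnion_le_card_mul (range (J + 1)) (fun s =>
        ((N s).filter (fun z => dist z (q s x) ≤ 4 * (a * 2 ^ s))).image (fun z => (q s x, z))) K
        (fun s _ => ?_)
      · rwa [Finset.card_range] at h3
      · refine Finset.card_image_le.trans ?_
        refine hK (a * 2 ^ s) (by positivity) (q s x) _ (fun z hz => (Finset.mem_filter.mp hz).2) ?_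
        intro z hz w hw hzw
        exact hN1 s z (Finset.mem_filter.mp hz).1 w (Finset.mem_filter.mp hw).1 hzw
    calc (P1 x ∪ P2 x).card ≤ (P1 x).card + (P2 x).card := Finset.card_union_le _ _
      _ ≤ (J + 1) + (J + 1) * K := add_le_add h1 h2
      _ = _ := by ring

/-- the pairs of an arbitrary finite space -/
theorem exists_pairs_card (M : Type*) [PseudoMetricSpace M] [Finite M] :
    ∃ P : M → Finset (M × M), Checks P 10 ∧ ∀ x, (P x).card ≤ Nat.card M := by
  classical
  have := Fintype.ofFinite M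
  refine ⟨fun x => (Finset.univ : Finset M).image (fun y => (x, y)), ?_, fun x => ?_⟩
  · intro h l hl x y hx _
    have h1 := hx (x, y) (Finset.mem_image.mpr ⟨y, Finset.mem_univ y, rfl⟩)
    simp only at h1
    have h2 : 0 ≤ l * dist x y := by positivity
    linarith
  · refine Finset.card_image_le.trans ?_
    rw [Finset.card_univ, Nat.card_eq_fintype_card]

end LipRad
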