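import Pool.Agent.Lib.MP_3ede0b_an.Nets

/-! Functionals carried by a subset, and the packing bound in finite-dimensional spaces. -/

namespace LipRad

open Finset LipFree MeasureTheory Metric Module
open scoped ENNReal

section transfer

variable {X : Type*} [PseudoMetricSpace X] {e : X} {M : Set X}

/-- restriction to a subset -/
def restrict (he : e ∈ M) (f : Lip0 X e) : Lip0 M ⟨e, he⟩ :=
  ⟨fun x => f x, ⟨‖f‖, fun x y => f.le_norm x y⟩, f.apply_base⟩

theorem restrict_apply (he : e ∈ M) (f : Lip0 X e) (x : M) : (restrict he f) x = f x := rfl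

theorem norm_restrict_le (he : e ∈ M) (f : Lip0 X e) : ‖restrict he f‖ ≤ ‖f‖ :=
  Lip0.norm_le _ (norm_nonneg f) fun x y => f.le_norm x y

theorem exists_ext (he : e ∈ M) (f : Lip0 M ⟨e, he⟩) :
    ∃ F : Lip0 X e, restrict he F = f ∧ ‖F‖ ≤ ‖f‖ := by
  classical
  let f0 : X → ℝ := fun x => if h : x ∈ M then f ⟨x, h⟩ else 0
  have hL : LipschitzOnWith ⟨‖f‖, norm_nonneg f⟩ f0 M := by
    refine LipschitzOnWith.of_dist_le_mul fun x hx y hy => ?_
    rw [Real.dist_eq]
    simp only [f0, dif_pos hx, dif_pos hy]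
    exact f.le_norm ⟨x, hx⟩ ⟨y, hy⟩
  obtain ⟨F, hF1, hF2⟩ := hL.extend_real
  have hF3 : ∀ x y, |F x - F y| ≤ ‖f‖ * dist x y := by
    intro x y
    have := hF1.dist_le_mul x y
    rwa [Real.dist_eq] at this
  have hFe : F e = 0 := by
    rw [← hF2 he]
    simp only [f0, dif_pos he]
    exact f.apply_base
  refine ⟨⟨F, ⟨‖f‖, hF3⟩, hFe⟩, ?_, Lip0.norm_le _ (norm_nonneg f) hF3⟩
  refine Subtype.ext (funext fun x => ?_)
  change F x = f x
  rw [← hF2 x.2]
  simp only [f0, dif_pos x.2]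

theorem exists_factor (he : e ∈ M) (φ : Lip0 X e →L[ℝ] ℝ)
    (hφ : φ ∈ Submodule.span ℝ ((fun x => delta e x) '' M)) :
    ∃ φ' : Lip0 M ⟨e, he⟩ →L[ℝ] ℝ, ∀ f, φ f = φ' (restrict he f) := by
  induction hφ using Submodule.span_induction with
  | mem x hx =>
    obtain ⟨y, hy, rfl⟩ := hx
    exact ⟨delta (⟨e, he⟩ : M) (⟨y, hy⟩ : M), fun f => rfl⟩
  | zero => exact ⟨0, fun f => rfl⟩
  | add x y _ _ hx hy =>
    obtain ⟨x', hx'⟩ := hx
    obtain ⟨y', hy'⟩ := hy
    refine ⟨x' + y', fun f => ?_⟩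
    rw [_root_.add_apply, _root_.add_apply, hx', hy']
  | smul a x _ hx =>
    obtain ⟨x', hx'⟩ := hx
    refine ⟨a • x', fun f => ?_⟩
    rw [_root_.smul_apply, _root_.smul_apply, hx']

theorem norm_factor (he : e ∈ M) (φ : Lip0 X e →L[ℝ] ℝ) (φ' : Lip0 M ⟨e, he⟩ →L[ℝ] ℝ)
    (h : ∀ f, φ f = φ' (restrict he f)) : ‖φ'‖ = ‖φ‖ := by
  apply le_antisymm
  · refine ContinuousLinearMap.opNorm_le_bound _ (norm_nonneg _) fun f => ?_
    obtain ⟨F, hF1, hF2⟩ := exists_ext he f
    rw [← hF1, ← h F]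
    refine (φ.le_opNorm F).trans ?_
    rw [hF1]
    exact mul_le_mul_of_nonneg_left hF2 (norm_nonneg _)
  · refine ContinuousLinearMap.opNorm_le_bound _ (norm_nonneg _) fun f => ?_
    rw [h f]
    exact (φ'.le_opNorm _).trans
      (mul_le_mul_of_nonneg_left (norm_restrict_le he f) (norm_nonneg _))

/-- the main inequality for functionals carried by a subset `M` of `X` -/
theorem sub_ineq {k : ℕ} (he : e ∈ M) (P : M → Finset (M × M)) (hch : Checks P 10) (D : ℝ)
    (hD : 2 ≤ D) (hP : ∀ x, ((P x).card : ℝ) ≤ D) (m : Fin k → (Lip0 X e →L[ℝ] ℝ))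
    (hm : ∀ i, m i ∈ Submodule.span ℝ ((fun x => delta e x) '' M)) :
    Real.sqrt (∑ i, ‖m i‖ ^ 2) ≤
      20 * Real.sqrt (60 * Real.log D) * avg (fun ε => ‖∑ i, sg (ε i) • m i‖) := by
  have h := fun i => exists_factor he (m i) (hm i)
  choose m' hm' using h
  have h1 := dual_ineq P hch D hD hP m'
  have h2 : ∀ i, ‖m' i‖ = ‖m i‖ := fun i => norm_factor he (m i) (m' i) (hm' i)
  have h3 : ∀ ε : Fin k → Bool, ‖∑ i, sg (ε i) • m' i‖ = ‖∑ i, sg (ε i) • m i‖ := by
    intro ε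
    refine norm_factor he _ _ fun f => ?_
    rw [_root_.sum_apply, _root_.sum_apply]
    refine sum_congr rfl fun i _ => ?_
    rw [_root_.smul_apply, _root_.smul_apply, hm']
  simp only [h2, h3] at h1
  exact h1

end transfer

/-- the packing bound in a finite-dimensional space -/
theorem packing_normed {E : Type*} [NormedAddCommGroup E] [NormedSpace ℝ E]
    [FiniteDimensional ℝ E] (M : Set E) : Packing M (9 ^ finrank ℝ E) := by
  classical
  intro r hr x S hS hsep
  borelize E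
  let μ : Measure E := Measure.addHaar
  set δ : ℝ := r / 2 with hδ
  set ρ : ℝ := 9 * r / 2 with hρ
  have δpos : 0 < δ := by positivity
  have ρpos : 0 < ρ := by positivity
  have D : Set.Pairwise (S : Set M) (Function.onFun Disjoint fun c => ball (c : E) δ) := by
    rintro c hc d hd hcd
    apply ball_disjoint_ball
    have := hsep c hc d hd hcd
    rw [Subtype.dist_eq] at this
    rw [hδ]; linarith
  have A_subset : (⋃ c ∈ S, ball (c : E) δ) ⊆ ball (x : E) ρ := by
    refine Set.iUnion₂_subset fun c hc => ?_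
    apply ball_subset_ball'
    have := hS c hc
    rw [Subtype.dist_eq] at this
    rw [hδ, hρ]; linarith
  have I0 : μ (⋃ c ∈ S, ball (c : E) δ) =
      (S.card : ℝ≥0∞) * ENNReal.ofReal (δ ^ finrank ℝ E) * μ (ball 0 1) := by
    rw [measure_biUnion_finset D fun c _ => measurableSet_ball]
    simp only [μ.addHaar_ball_of_pos _ δpos]
    simp only [Finset.sum_const, nsmul_eq_mul, mul_assoc]
  have I : (S.card : ℝ≥0∞) * ENNReal.ofReal (δ ^ finrank ℝ E) * μ (ball 0 1) ≤
      ENNReal.ofReal (ρ ^ finrank ℝ E) * μ (ball 0 1) := by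
    rw [← I0, ← μ.addHaar_ball_of_pos (x : E) ρpos]
    exact measure_mono A_subset
  have J : (S.card : ℝ≥0∞) * ENNReal.ofReal (δ ^ finrank ℝ E) ≤
      ENNReal.ofReal (ρ ^ finrank ℝ E) :=
    (ENNReal.mul_le_mul_iff_left (measure_ball_pos _ _ zero_lt_one).ne'
      measure_ball_lt_top.ne).1 I
  have K : (S.card : ℝ) * δ ^ finrank ℝ E ≤ ρ ^ finrank ℝ E := by
    have := ENNReal.toReal_le_of_le_ofReal (pow_nonneg ρpos.le _) J
    rwa [ENNReal.toReal_mul, ENNReal.toReal_natCast,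
      ENNReal.toReal_ofReal (pow_nonneg δpos.le _)] at this
  have e1 : ρ ^ finrank ℝ E = (9 : ℝ) ^ finrank ℝ E * δ ^ finrank ℝ E := by
    rw [← mul_pow]; congr 1; rw [hρ, hδ]; ring
  rw [e1] at K
  have K2 : (S.card : ℝ) ≤ (9 : ℝ) ^ finrank ℝ E := le_of_mul_le_mul_right K (pow_pos δpos _)
  exact_mod_cast K2

end LipRad
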